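import Mathlib

set_option autoImplicit false

open MeasureTheory Filter Topology
open scoped ENNReal NNReal

namespace Pool.Agent.H635F

/-- Borel probability measures on the circle. -/
abbrev PM := ProbabilityMeasure UnitAddCircle

/-- Convolution of two probability measures on the circle. -/
noncomputable def cv (μ ν : PM) : PM :=
  (μ.prod ν).map (f := fun p : UnitAddCircle × UnitAddCircle => p.1 + p.2)
    continuous_add.measurable.aemeasurable

/-- Push-forward under multiplication by `n`. -/
noncomputable def push (n : ℕ) (μ : PM) : PM :=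
  μ.map (f := fun x : UnitAddCircle => n • x) (continuous_nsmul n).measurable.aemeasurable

/-- Invariance under multiplication by two and by three. -/
def Inv (μ : PM) : Prop := push 2 μ = μ ∧ push 3 μ = μ

lemma continuous_cv : Continuous fun p : PM × PM => cv p.1 p.2 := by
  unfold cv
  exact (ProbabilityMeasure.continuous_map
    (f := fun p : UnitAddCircle × UnitAddCircle => p.1 + p.2) continuous_add).comp
      ProbabilityMeasure.continuous_prod

lemma continuous_push (n : ℕ) : Continuous (push n) :=
  ProbabilityMeasure.continuous_map (continuous_nsmul n)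

lemma coe_cv (μ ν : PM) : (cv μ ν : Measure UnitAddCircle) =
    Measure.conv (μ : Measure UnitAddCircle) (ν : Measure UnitAddCircle) := rfl

lemma coe_push (n : ℕ) (μ : PM) : (push n μ : Measure UnitAddCircle) =
    Measure.map (fun x : UnitAddCircle => n • x) (μ : Measure UnitAddCircle) := rfl

lemma cv_assoc (μ ν ρ : PM) : cv (cv μ ν) ρ = cv μ (cv ν ρ) := by
  apply ProbabilityMeasure.toMeasure_injective
  simp only [coe_cv]
  exact Measure.conv_assoc _ _ _

lemma push_cv (n : ℕ) (μ ν : PM) : push n (cv μ ν) = cv (push n μ) (push n ν) := by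
  apply ProbabilityMeasure.toMeasure_injective
  simp only [coe_cv, coe_push]
  exact Measure.map_conv_addMonoidHom (nsmulAddMonoidHom (α := UnitAddCircle) n)
    (continuous_nsmul n).measurable

lemma Inv.cv {μ ν : PM} (h : Inv μ) (h' : Inv ν) : Inv (cv μ ν) :=
  ⟨by rw [push_cv, h.1, h'.1], by rw [push_cv, h.2, h'.2]⟩

/-- The Dirac measure at zero. -/
noncomputable def d0 : PM := ⟨Measure.dirac 0, inferInstance⟩

lemma cv_d0 (μ : PM) : cv μ d0 = μ := by
  apply ProbabilityMeasure.toMeasure_injective
  simp only [coe_cv]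
  exact Measure.conv_dirac_zero _

lemma inv_d0 : Inv d0 := by
  constructor
  · apply ProbabilityMeasure.toMeasure_injective
    rw [coe_push]
    change Measure.map _ (Measure.dirac 0) = Measure.dirac 0
    rw [Measure.map_dirac' (continuous_nsmul 2).measurable]
    simp
  · apply ProbabilityMeasure.toMeasure_injective
    rw [coe_push]
    change Measure.map _ (Measure.dirac 0) = Measure.dirac 0
    rw [Measure.map_dirac' (continuous_nsmul 3).measurable]
    simp

lemma measurable_atom (μ : PM) : Measurable fun z : UnitAddCircle => (μ : Measure UnitAddCircle) {z} := by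
  have h := measurable_measure_prodMk_left (ν := (μ : Measure UnitAddCircle))
    (s := {p : UnitAddCircle × UnitAddCircle | p.2 = p.1})
    (isClosed_eq continuous_snd continuous_fst).measurableSet
  have e : (fun z : UnitAddCircle => (μ : Measure UnitAddCircle) {z}) = fun z =>
      (μ : Measure UnitAddCircle) (Prod.mk z ⁻¹'
        {p : UnitAddCircle × UnitAddCircle | p.2 = p.1}) := by
    funext z
    congr 1
  rw [e]
  exact h

lemma cv_atom (σ ν : PM) (z : UnitAddCircle) : (cv σ ν : Measure UnitAddCircle) {z} =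
    ∫⁻ t, (σ : Measure UnitAddCircle) {z - t} ∂(ν : Measure UnitAddCircle) := by
  rw [coe_cv, Measure.conv, Measure.map_apply continuous_add.measurable (measurableSet_singleton z),
    Measure.prod_apply_symm (continuous_add.measurable (measurableSet_singleton z))]
  refine lintegral_congr fun t => ?_
  congr 1
  ext x
  simp [eq_sub_iff_add_eq]

lemma cv_atom_le (σ ν : PM) (s : ℝ≥0∞) (h : ∀ y, (σ : Measure UnitAddCircle) {y} ≤ s)
    (z : UnitAddCircle) : (cv σ ν : Measure UnitAddCircle) {z} ≤ s := by
  rw [cv_atom]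
  calc _ ≤ ∫⁻ _, s ∂(ν : Measure UnitAddCircle) := lintegral_mono fun t => h _
    _ = s := by simp

/-- The collision probability of `σ`. -/
noncomputable def En (σ : PM) : ℝ≥0∞ :=
  ∫⁻ z, (σ : Measure UnitAddCircle) {z} ∂(σ : Measure UnitAddCircle)

lemma sq_atom_le (σ : PM) (z : UnitAddCircle) :
    (σ : Measure UnitAddCircle) {z} ^ 2 ≤ En σ := by
  unfold En
  calc (σ : Measure UnitAddCircle) {z} ^ 2
      = ∫⁻ w in {z}, (σ : Measure UnitAddCircle) {w} ∂(σ : Measure UnitAddCircle) := by
        simp [sq]
    _ ≤ _ := setLIntegral_le_lintegral _ _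

/-- The mean distance to zero. -/
noncomputable def J (μ : PM) : ℝ≥0∞ := ∫⁻ x, (‖x‖₊ : ℝ≥0∞) ∂(μ : Measure UnitAddCircle)

lemma continuous_J : Continuous J :=
  ProbabilityMeasure.continuous_lintegral_continuousMap
    (⟨fun x : UnitAddCircle => ‖x‖₊, continuous_nnnorm⟩ : C(UnitAddCircle, ℝ≥0))

lemma measurable_nn : Measurable fun x : UnitAddCircle => (‖x‖₊ : ℝ≥0∞) :=
  (ENNReal.continuous_coe.comp continuous_nnnorm).measurable

lemma J_cv_le (μ ν : PM) : J (cv μ ν) ≤ J μ + J ν := by
  unfold J
  rw [coe_cv, Measure.lintegral_conv measurable_nn]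
  calc ∫⁻ x, ∫⁻ y, (‖x + y‖₊ : ℝ≥0∞) ∂(ν : Measure UnitAddCircle) ∂(μ : Measure UnitAddCircle)
      ≤ ∫⁻ x, ∫⁻ y, ((‖x‖₊ : ℝ≥0∞) + ‖y‖₊) ∂(ν : Measure UnitAddCircle)
        ∂(μ : Measure UnitAddCircle) := by
        refine lintegral_mono fun x => lintegral_mono fun y => ?_
        rw [← ENNReal.coe_add]
        exact ENNReal.coe_le_coe.2 (nnnorm_add_le x y)
    _ = _ := by
        simp_rw [lintegral_add_left measurable_const]
        simp [lintegral_add_right]

lemma J_d0 : J d0 = 0 := by
  unfold J d0
  simp

end Pool.Agent.H635F
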