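import Pool.Agent.H635F.Four

set_option autoImplicit false

open MeasureTheory Filter Topology
open scoped ENNReal NNReal

namespace Pool.Agent.H635F

lemma J_ne_top (ν : PM) : J ν ≠ ⊤ := by
  refine ne_top_of_le_ne_top (b := 2⁻¹) (by simp) ?_
  unfold J
  calc _ ≤ ∫⁻ _, 2⁻¹ ∂(ν : Measure UnitAddCircle) := lintegral_mono fun x => nn_le_half x
    _ = _ := by simp

lemma integral_norm_eq (ν : PM) : ∫ x, ‖x‖ ∂(ν : Measure UnitAddCircle) = (J ν).toReal := by
  unfold J
  rw [integral_eq_lintegral_of_nonneg_ae (Eventually.of_forall fun x => norm_nonneg x)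
    continuous_norm.aestronglyMeasurable]
  congr 1
  refine lintegral_congr fun x => ?_
  rw [← coe_nnnorm, ENNReal.ofReal_coe_nnreal]

lemma integral_norm_push (k : ℕ) (ν : PM) :
    ∫ x, ‖k • x‖ ∂(ν : Measure UnitAddCircle) = (J (push k ν)).toReal := by
  rw [← integral_norm_eq, coe_push, integral_map (continuous_nsmul k).measurable.aemeasurable
    continuous_norm.aestronglyMeasurable]

lemma pow_smul_per (a N : ℕ) (x : UnitAddCircle) (h : (a ^ N) • x = x) (k : ℕ) :
    (a ^ (N * k)) • x = x := by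
  induction k with
  | zero => simp
  | succ k ih => rw [Nat.mul_succ, pow_add, mul_nsmul', h, ih]

lemma per_zero (a N : ℕ) (hN : 1 ≤ N) (x : UnitAddCircle) (h : (a ^ N) • x = x) (i : ℕ)
    (hi : (a ^ i) • x = 0) : x = 0 := by
  have h1 := pow_smul_per a N x h i
  have h2 : N * i = (N * i - i) + i := by
    have : i ≤ N * i := Nat.le_mul_of_pos_left i hN
    omega
  rw [h2, pow_add, mul_nsmul', hi, smul_zero] at h1
  exact h1.symm

lemma per_smul (n N : ℕ) (x : UnitAddCircle) (h : n • x = x) : n • (N • x) = N • x := by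
  rw [smul_comm, h]

lemma orbit_ne_zero (x : UnitAddCircle) (N M : ℕ) (hN : 1 ≤ N) (hM : 1 ≤ M)
    (h2 : (2 ^ N) • x = x) (h3 : (3 ^ M) • x = x) (hx : x ≠ 0) (i j : ℕ) :
    (2 ^ i * 3 ^ j) • x ≠ 0 := by
  intro h
  rw [mul_nsmul'] at h
  have h4 := per_zero 2 N hN ((3 ^ j) • x) (per_smul _ _ _ h2) i h
  exact hx (per_zero 3 M hM x h3 j h4)

/-- The class of finite orbit measures. -/
def IsOrb (ν : PM) : Prop := ∃ (x : UnitAddCircle) (N M : ℕ) (hN : 1 ≤ N) (hM : 1 ≤ M),
  (2 ^ N) • x = x ∧ (3 ^ M) • x = x ∧ ν = orb x N M hN hM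

/-- Nonzero periodic orbits have mean distance to zero bounded below. -/
def GapOrb : Prop := ∃ c : ℝ, 0 < c ∧ ∀ (x : UnitAddCircle) (N M : ℕ), 1 ≤ N → 1 ≤ M →
  (2 ^ N) • x = x → (3 ^ M) • x = x → x ≠ 0 →
    c ≤ ((N : ℝ) * M)⁻¹ * ∑ i ∈ Finset.range N, ∑ j ∈ Finset.range M, ‖(2 ^ i * 3 ^ j) • x‖

/-- Furstenberg rigidity for infinite convolutions of finite orbit measures. -/
def ConvRigid : Prop := ∀ s : ℕ → PM, (∀ n, IsOrb (s n)) → ∀ μ : PM,
  MapClusterPt μ atTop (pc s) → (∀ x, (μ : Measure UnitAddCircle) {x} = 0) →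
    (μ : Measure UnitAddCircle) = volume

/-- Furstenberg rigidity for convergent infinite convolutions of finite orbit measures. -/
def ConvRigid' : Prop := ∀ s : ℕ → PM, (∀ n, IsOrb (s n)) → ∀ μ : PM,
  Tendsto (pc s) atTop (𝓝 μ) → (∀ x, (μ : Measure UnitAddCircle) {x} = 0) → Inv μ →
    (μ : Measure UnitAddCircle) = volume

lemma norm_F_sub_one (k : ℤ) (ν : PM) :
    ‖F k ν - 1‖ ≤ 2 * Real.pi * |(k : ℝ)| * (J ν).toReal := by
  have h1 : F k ν - 1 = ∫ x, ((fourier k x : ℂ) - 1) ∂(ν : Measure UnitAddCircle) := by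
    rw [integral_sub (integrable_fourier k _) (integrable_const _)]
    simp [F]
  rw [h1, ← integral_norm_eq, ← integral_const_mul]
  refine norm_integral_le_of_norm_le ?_ (Eventually.of_forall fun x => fourier_sub_one_le k x)
  exact (continuous_norm.integrable_of_hasCompactSupport
    (HasCompactSupport.of_compactSpace _)).const_mul _

lemma converges (s : ℕ → PM) (hs : ∀ n, J (s n) ≤ 2⁻¹ ^ (n + 5)) (μ : PM)
    (hμ : MapClusterPt μ atTop (pc s)) : Tendsto (pc s) atTop (𝓝 μ) := by
  have hlim : ∀ k : ℤ, ∃ a : ℂ, Tendsto (fun n => F k (pc s n)) atTop (𝓝 a) := by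
    intro k
    have hc : CauchySeq fun n => F k (pc s n) := by
      refine cauchySeq_of_le_geometric (2⁻¹ : ℝ) (2 * Real.pi * |(k : ℝ)|) (by norm_num)
        fun n => ?_
      rw [dist_eq_norm]
      change ‖F k (pc s n) - F k (cv (pc s n) (s n))‖ ≤ _
      rw [F_cv, show F k (pc s n) - F k (pc s n) * F k (s n) =
        -(F k (pc s n) * (F k (s n) - 1)) by ring, norm_neg, norm_mul]
      have h1 := norm_F_le k (pc s n)
      have h2 := norm_F_sub_one k (s n)
      have h3 : (J (s n)).toReal ≤ 2⁻¹ ^ n := by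
        have h4 := ENNReal.toReal_mono (by simp) (hs n)
        rw [ENNReal.toReal_pow, ENNReal.toReal_inv, ENNReal.toReal_ofNat] at h4
        exact h4.trans (pow_le_pow_of_le_one (by norm_num) (by norm_num) (by omega))
      calc ‖F k (pc s n)‖ * ‖F k (s n) - 1‖ ≤ 1 * (2 * Real.pi * |(k : ℝ)| * (J (s n)).toReal) := by
            gcongr
        _ ≤ 2 * Real.pi * |(k : ℝ)| * 2⁻¹ ^ n := by
            rw [one_mul]
            have : 0 ≤ 2 * Real.pi * |(k : ℝ)| := by positivity
            gcongr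
    exact cauchySeq_tendsto_of_complete hc
  refine tendsto_nhds_of_unique_mapClusterPt fun μ' hμ' => ?_
  obtain ⟨U, hU, hμU⟩ := mapClusterPt_iff_ultrafilter.1 hμ
  obtain ⟨U', hU', hμU'⟩ := mapClusterPt_iff_ultrafilter.1 hμ'
  apply ProbabilityMeasure.toMeasure_injective
  refine ext_fourier _ _ fun k => ?_
  obtain ⟨a, ha⟩ := hlim k
  have h1 : F k μ = a := tendsto_nhds_unique (((continuous_F k).tendsto μ).comp hμU)
    (ha.mono_left hU)
  have h2 : F k μ' = a := tendsto_nhds_unique (((continuous_F k).tendsto μ').comp hμU')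
    (ha.mono_left hU')
  change F k μ' = F k μ
  rw [h1, h2]

lemma contra_volume (μ : PM) (hJ : J μ ≤ 2⁻¹ ^ 4) : (μ : Measure UnitAddCircle) ≠ volume := by
  intro h
  unfold J at hJ
  rw [h] at hJ
  have h5 := J_volume.trans hJ
  have h6 : (2⁻¹ : ℝ≥0∞) ^ 4 < 2⁻¹ ^ 3 := by
    rw [pow_succ _ 3]
    have : (2⁻¹ : ℝ≥0∞) ^ 3 * 2⁻¹ = 2⁻¹ ^ 3 / 2 := by rw [div_eq_mul_inv]
    rw [this]
    exact ENNReal.half_lt_self (pow_ne_zero _ (by simp)) (by simp)
  exact absurd h5 (not_le.2 h6)

theorem gapOrb_of_conv (H : ConvRigid') : GapOrb := by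
  by_contra hcon
  unfold GapOrb at hcon
  push Not at hcon
  obtain ⟨s, hs, hsJ, μ, hμ, hinv, hat, hJ⟩ := exists_atomless_class IsOrb (fun c hc => by
    have hc' : 0 < (min c 1).toReal := ENNReal.toReal_pos
      (by rw [← pos_iff_ne_zero, lt_min_iff]; exact ⟨pos_iff_ne_zero.2 hc, one_pos⟩)
      (ne_top_of_le_ne_top ENNReal.one_ne_top (min_le_right _ _))
    obtain ⟨x, N, M, hN, hM, h2, h3, hx, hlt⟩ := hcon _ hc'
    refine ⟨orb x N M hN hM, ⟨x, N, M, hN, hM, h2, h3, rfl⟩, orb_inv x N M hN hM h2 h3, ?_, ?_⟩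
    · refine orb_null x N M hN hM {0} (measurableSet_singleton 0) fun i j => ?_
      exact orbit_ne_zero x N M hN hM h2 h3 hx i j
    · have h4 := integral_norm_eq (orb x N M hN hM)
      rw [orb_integral x N M hN hM (fun y => ‖y‖) continuous_norm] at h4
      have h5 : (J (orb x N M hN hM)).toReal ≤ (min c 1).toReal := by
        rw [← h4]; exact hlt.le
      exact ((ENNReal.toReal_le_toReal (J_ne_top _) (ne_top_of_le_ne_top ENNReal.one_ne_top
        (min_le_right _ _))).1 h5).trans (min_le_left _ _))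
  exact contra_volume μ hJ (H s hs μ (converges s hsJ μ hμ) hat hinv)

lemma F_pc_antitone (k : ℤ) (s : ℕ → PM) : Antitone fun n => ‖F k (pc s n)‖ := by
  refine antitone_nat_of_succ_le fun n => ?_
  change ‖F k (cv (pc s n) (s n))‖ ≤ ‖F k (pc s n)‖
  rw [F_cv, norm_mul]
  exact mul_le_of_le_one_right (norm_nonneg _) (norm_F_le k _)

theorem conv_of_gapOrb (H : GapOrb) : ConvRigid := by
  obtain ⟨c, hc, h⟩ := H
  obtain ⟨r, hr0, hr1, hr⟩ := exists_r (ENNReal.ofReal c) (by simpa using hc)
  intro s hs μ hμ hat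
  choose x N M hN hM h2 h3 hsx using hs
  obtain ⟨U, hU, hμU⟩ := mapClusterPt_iff_ultrafilter.1 hμ
  have key : ∀ (k n : ℕ), k • x n ≠ 0 → ‖F k (s n)‖ ≤ r := by
    intro k n hk
    rw [← F_push]
    have hinv : Inv (s n) := by
      rw [hsx n]; exact orb_inv _ _ _ _ _ (h2 n) (h3 n)
    refine hr _ (hinv.push k) ?_
    rw [ENNReal.ofReal_le_iff_le_toReal (J_ne_top _), ← integral_norm_push, hsx n,
      orb_integral (x n) (N n) (M n) (hN n) (hM n) (fun y => ‖k • y‖)
        (continuous_nsmul k).norm]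
    have h4 := h (k • x n) (N n) (M n) (hN n) (hM n) (per_smul _ _ _ (h2 n))
      (per_smul _ _ _ (h3 n)) hk
    refine h4.trans (le_of_eq ?_)
    congr 1
    refine Finset.sum_congr rfl fun i _ => Finset.sum_congr rfl fun j _ => ?_
    rw [smul_comm]
  have main : ∀ k : ℕ, 1 ≤ k → F k μ = 0 := by
    intro k hk
    by_cases hfin : {n | k • x n ≠ 0}.Finite
    · exfalso
      obtain ⟨L, hL1, hL⟩ : ∃ L : ℕ, 1 ≤ L ∧ ∀ n, L • x n = 0 := by
        refine ⟨k * ∏ n ∈ hfin.toFinset, (2 ^ N n - 1), ?_, fun n => ?_⟩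
        · refine Nat.mul_pos hk (Finset.prod_pos fun n _ => ?_)
          have : 2 ≤ 2 ^ N n := by
            calc 2 = 2 ^ 1 := rfl
              _ ≤ 2 ^ N n := Nat.pow_le_pow_right (by norm_num) (hN n)
          omega
        · by_cases hn : k • x n = 0
          · rw [mul_comm, mul_nsmul', hn, smul_zero]
          · have hmem : n ∈ hfin.toFinset := by simpa using hn
            obtain ⟨q, hq⟩ := Finset.dvd_prod_of_mem (fun n => 2 ^ N n - 1) hmem
            have h4 : (2 ^ N n - 1) • x n = 0 := by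
              have h5 : (2 ^ N n) • x n = (2 ^ N n - 1) • x n + x n := by
                conv_lhs => rw [← Nat.sub_add_cancel (Nat.one_le_two_pow (n := N n))]
                rw [add_nsmul, one_nsmul]
              rw [h2 n] at h5
              exact right_eq_add.1 h5
            rw [hq, mul_nsmul', mul_comm, mul_nsmul', h4]
            simp
      have hJs : ∀ n, J (push L (s n)) = 0 := by
        intro n
        rw [J_push, hsx n]
        have hmL : Measurable fun y : UnitAddCircle => (‖L • y‖₊ : ℝ≥0∞) :=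
          measurable_nn.comp (continuous_nsmul L).measurable
        rw [lintegral_eq_zero_iff hmL]
        have hopen : IsOpen {y : UnitAddCircle | L • y ≠ 0} :=
          isOpen_ne_fun (continuous_nsmul L) continuous_const
        have h5 := orb_null (x n) (N n) (M n) (hN n) (hM n) {y : UnitAddCircle | L • y ≠ 0}
          hopen.measurableSet (fun i j => by
            simp only [Set.mem_ofPred_eq, not_not]
            rw [smul_comm, hL n, smul_zero])
        have h6 : ∀ᵐ y ∂(orb (x n) (N n) (M n) (hN n) (hM n) : Measure UnitAddCircle),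
            L • y = 0 := h5
        filter_upwards [h6] with y hy
        simp [hy]
      have hJpc : ∀ n, J (push L (pc s n)) = 0 := by
        intro n
        induction n with
        | zero =>
          change J (push L d0) = 0
          rw [J_push]
          unfold d0
          simp
        | succ n ih =>
          change J (push L (cv (pc s n) (s n))) = 0
          rw [push_cv]
          refine le_antisymm ((J_cv_le _ _).trans ?_) zero_le
          rw [ih, hJs n, add_zero]
      have hJμ : J (push L μ) = 0 := by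
        have h5 : Tendsto (fun n => J (push L (pc s n))) U (𝓝 (J (push L μ))) :=
          ((continuous_J.comp (continuous_push L)).tendsto μ).comp hμU
        simp only [hJpc] at h5
        exact (tendsto_nhds_unique h5 tendsto_const_nhds)
      have hmL : Measurable fun y : UnitAddCircle => (‖L • y‖₊ : ℝ≥0∞) :=
        measurable_nn.comp (continuous_nsmul L).measurable
      rw [J_push, lintegral_eq_zero_iff hmL] at hJμ
      have h7 : ∀ᵐ y ∂(μ : Measure UnitAddCircle), L • y = 0 := by
        filter_upwards [hJμ] with y hy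
        simpa using hy
      have hns : NullSingletonClass (μ : Measure UnitAddCircle) := ⟨hat⟩
      have h8 : (μ : Measure UnitAddCircle) {y | L • y = 0} = 0 :=
        (AddCircle.finite_torsion (1 : ℝ) hL1).measure_zero _
      have h9 : (μ : Measure UnitAddCircle) {y | ¬ (L • y = 0)} = 0 := h7
      have h10 : (μ : Measure UnitAddCircle) Set.univ = 0 := by
        refine measure_mono_null (t := {y | L • y = 0} ∪ {y | ¬ (L • y = 0)}) ?_
          (measure_union_null h8 h9)
        intro y _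
        by_cases hy : L • y = 0
        · exact Or.inl hy
        · exact Or.inr hy
      rw [measure_univ] at h10
      exact one_ne_zero h10
    · have hm : ∀ m : ℕ, ∃ n, ∀ n' ≥ n, ‖F k (pc s n')‖ ≤ r ^ m := by
        intro m
        induction m with
        | zero => exact ⟨0, fun n' _ => by simpa using norm_F_le _ _⟩
        | succ m ih =>
          obtain ⟨n, hn⟩ := ih
          obtain ⟨j, hj, hnj⟩ := (Set.Infinite.exists_gt hfin n)
          refine ⟨j + 1, fun n' hn' => ?_⟩
          refine (F_pc_antitone k s hn').trans ?_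
          change ‖F k (cv (pc s j) (s j))‖ ≤ _
          rw [F_cv, norm_mul, pow_succ]
          have h4 := hn j hnj.le
          have h5 := key k j hj
          gcongr
      have hle : ∀ m : ℕ, ‖F k μ‖ ≤ r ^ m := by
        intro m
        obtain ⟨n, hn⟩ := hm m
        refine le_of_tendsto (((continuous_F k).norm.tendsto μ).comp hμU) ?_
        filter_upwards [hU (eventually_ge_atTop n)] with n' hn'
        exact hn n' hn'
      have h6 : ‖F k μ‖ ≤ 0 :=
        ge_of_tendsto' (tendsto_pow_atTop_nhds_zero_of_lt_one hr0 hr1) hle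
      exact norm_le_zero_iff.1 h6
  refine eq_volume μ fun k hk => ?_
  rcases Int.natAbs_eq k with hk' | hk'
  · rw [hk']
    exact main _ (Int.natAbs_pos.2 hk)
  · rw [hk']
    exact F_neg _ _ (main _ (Int.natAbs_pos.2 hk))

lemma conv_of_conv (H : ConvRigid) : ConvRigid' := fun s hs μ hμ hat _ =>
  H s hs μ hμ.mapClusterPt hat

theorem tfae : [ConvRigid', ConvRigid, GapOrb].TFAE := by
  tfae_have 2 → 1 := conv_of_conv
  tfae_have 1 → 3 := gapOrb_of_conv
  tfae_have 3 → 2 := conv_of_gapOrb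
  tfae_finish

/-- The explicit form of positive proportion equidistribution for finite orbits. -/
theorem equi_orb (H : Furst) : ∃ c : ℝ, 0 < c ∧
    (∀ ν : PM, Inv ν → (ν : Measure UnitAddCircle) {0} = 0 →
      c ≤ ∫ x, ‖x‖ ∂(ν : Measure UnitAddCircle)) ∧
    ∀ f : C(UnitAddCircle, ℝ), (∀ x, 0 ≤ f x) → ∀ ε : ℝ, 0 < ε → ∃ Q : ℕ,
      ∀ (x : UnitAddCircle) (N M : ℕ), 1 ≤ N → 1 ≤ M → (2 ^ N) • x = x → (3 ^ M) • x = x →
        (∀ m : ℕ, 1 ≤ m → m ≤ Q → m • x ≠ 0) →
          c * ∫ y, f y ∂(volume : Measure UnitAddCircle) - ε ≤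
            ((N : ℝ) * M)⁻¹ * ∑ i ∈ Finset.range N, ∑ j ∈ Finset.range M,
              f ((2 ^ i * 3 ^ j) • x) := by
  obtain ⟨c, hc, h1, h2⟩ := equi H
  refine ⟨c, hc, h1, fun f hf ε hε => ?_⟩
  obtain ⟨Q, hQ⟩ := h2 f hf ε hε
  refine ⟨Q, fun x N M hN hM hx2 hx3 htor => ?_⟩
  rw [← orb_integral x N M hN hM f f.continuous]
  refine hQ _ (orb_inv x N M hN hM hx2 hx3) ?_
  refine orb_null x N M hN hM _ ?_ fun i j => ?_
  · have hc : {x : UnitAddCircle | ∃ m : ℕ, 1 ≤ m ∧ m ≤ Q ∧ m • x = 0}.Countable :=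
      Tor_countable.mono fun x hx => by
        obtain ⟨m, h1, -, h2⟩ := hx
        exact ⟨m, h1, h2⟩
    exact hc.measurableSet
  · rintro ⟨m, hm1, hmQ, hm⟩
    have h3 := htor m hm1 hmQ
    rw [smul_comm] at hm
    exact orbit_ne_zero (m • x) N M hN hM (per_smul _ _ _ hx2) (per_smul _ _ _ hx3) h3 i j hm

end Pool.Agent.H635F
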