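import Pool.Agent.H635F.Orb

set_option autoImplicit false

open MeasureTheory Filter Topology
open scoped ENNReal NNReal

namespace Pool.Agent.H635F

lemma le_of_integral (α β : Measure UnitAddCircle) [IsFiniteMeasure α] [IsFiniteMeasure β]
    (h : ∀ f : C(UnitAddCircle, ℝ), (∀ x, 0 ≤ f x) → ∫ x, f x ∂α ≤ ∫ x, f x ∂β) : α ≤ β := by
  have hcl : ∀ F : Set UnitAddCircle, IsClosed F → α F ≤ β F := by
    intro F hF
    refine le_of_tendsto_of_tendsto' (HasOuterApproxClosed.tendsto_lintegral_apprSeq hF α)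
      (HasOuterApproxClosed.tendsto_lintegral_apprSeq hF β) fun n => ?_
    have hc : Continuous fun x => ((hF.apprSeq n x : ℝ≥0) : ℝ) :=
      NNReal.continuous_coe.comp (hF.apprSeq n).continuous
    have hi : ∀ γ : Measure UnitAddCircle, IsFiniteMeasure γ →
        Integrable (fun x => ((hF.apprSeq n x : ℝ≥0) : ℝ)) γ := fun γ _ =>
      hc.integrable_of_hasCompactSupport (HasCompactSupport.of_compactSpace _)
    rw [lintegral_coe_eq_integral _ (hi α inferInstance),
      lintegral_coe_eq_integral _ (hi β inferInstance)]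
    exact ENNReal.ofReal_le_ofReal (h ⟨_, hc⟩ fun x => NNReal.coe_nonneg _)
  refine Measure.le_iff.2 fun A hA => ?_
  rw [hA.measure_eq_iSup_isClosed_of_ne_top (measure_ne_top α A)]
  exact iSup_le fun F => iSup_le fun hFA => iSup_le fun hF =>
    (hcl F hF).trans (measure_mono hFA)

/-- Uniform positive proportion equidistribution. -/
def Equi : Prop := ∃ c : ℝ, 0 < c ∧
  ∀ f : C(UnitAddCircle, ℝ), (∀ x, 0 ≤ f x) → ∀ ε : ℝ, 0 < ε → ∃ Q : ℕ, ∀ ν : PM, Inv ν →
    (ν : Measure UnitAddCircle) {x | ∃ m : ℕ, 1 ≤ m ∧ m ≤ Q ∧ m • x = 0} = 0 →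
      c * ∫ x, f x ∂(volume : Measure UnitAddCircle) - ε ≤
        ∫ x, f x ∂(ν : Measure UnitAddCircle)

/-- The class of atomless invariant probability measures. -/
def AI (μ : Measure UnitAddCircle) : Prop := IsProbabilityMeasure μ ∧ (∀ x, μ {x} = 0) ∧
  MeasurePreserving (fun x : UnitAddCircle => 2 • x) μ μ ∧
    MeasurePreserving (fun x : UnitAddCircle => 3 • x) μ μ

lemma Equi.le (H : Equi) : ∃ c : ℝ≥0∞, c ≠ 0 ∧ ∀ μ : Measure UnitAddCircle, AI μ →
    c • (volume : Measure UnitAddCircle) ≤ μ := by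
  obtain ⟨c, hc, h⟩ := H
  refine ⟨ENNReal.ofReal c, by simpa using hc, fun μ hμ => ?_⟩
  have := hμ.1
  have : IsFiniteMeasure (ENNReal.ofReal c • (volume : Measure UnitAddCircle)) :=
    Measure.smul_finite _ (by simp)
  refine le_of_integral _ _ fun f hf => ?_
  rw [integral_smul_measure, ENNReal.toReal_ofReal hc.le, smul_eq_mul]
  refine le_of_forall_pos_le_add fun ε hε => ?_
  obtain ⟨Q, hQ⟩ := h f hf ε hε
  have h1 := hQ ⟨μ, hμ.1⟩ ((inv_iff _).2 ⟨hμ.2.2.1, hμ.2.2.2⟩) (by
    have hcount : {x : UnitAddCircle | ∃ m : ℕ, 1 ≤ m ∧ m ≤ Q ∧ m • x = 0}.Countable :=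
      Tor_countable.mono fun x hx => by
        obtain ⟨m, h1, -, h2⟩ := hx
        exact ⟨m, h1, h2⟩
    have : NullSingletonClass μ := ⟨hμ.2.1⟩
    exact hcount.measure_zero μ)
  have h2 : c * ∫ x, f x ∂(volume : Measure UnitAddCircle) - ε ≤ ∫ x, f x ∂μ := h1
  linarith

lemma map_volume (m : ℕ) (hm : 1 ≤ m) :
    Measure.map (fun x : UnitAddCircle => m • x) volume = (volume : Measure UnitAddCircle) := by
  have h : MeasurePreserving (fun x : UnitAddCircle => m • x) (volume : Measure UnitAddCircle)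
      volume := by
    rcases Nat.lt_or_ge 1 m with h1 | h1
    · exact (AddCircle.ergodic_nsmul (T := (1 : ℝ)) h1).toMeasurePreserving
    · have : m = 1 := le_antisymm h1 hm
      subst this
      simp only [one_nsmul]
      exact MeasurePreserving.id _
  exact h.map_eq

lemma improve (c : ℝ≥0∞) (hc : ∀ μ : Measure UnitAddCircle, AI μ →
    c • (volume : Measure UnitAddCircle) ≤ μ) (b : ℝ≥0∞) (hb1 : b < 1)
    (hb : ∀ μ : Measure UnitAddCircle, AI μ → b • (volume : Measure UnitAddCircle) ≤ μ) :
    ∀ μ : Measure UnitAddCircle, AI μ →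
      (b + (1 - b) * c) • (volume : Measure UnitAddCircle) ≤ μ := by
  intro μ hμ
  have := hμ.1
  have hbt : b ≠ ⊤ := ne_top_of_lt hb1
  have : IsFiniteMeasure (b • (volume : Measure UnitAddCircle)) := Measure.smul_finite _ hbt
  have hle := hb μ hμ
  set ν := μ - b • (volume : Measure UnitAddCircle) with hν
  have hadd : ν + b • (volume : Measure UnitAddCircle) = μ := Measure.sub_add_cancel_of_le hle
  have hνμ : ν ≤ μ := Measure.sub_le
  have : IsFiniteMeasure ν := isFiniteMeasure_of_le μ hνμ
  have hd0 : 1 - b ≠ 0 := (tsub_pos_of_lt hb1).ne'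
  have hdt : 1 - b ≠ ⊤ := by simp
  have hmass : ν Set.univ = 1 - b := by
    have h1 := congrArg (fun γ : Measure UnitAddCircle => γ Set.univ) hadd
    simp only [Measure.add_apply, Measure.smul_apply, UnitAddCircle.measure_univ, smul_eq_mul,
      mul_one, measure_univ] at h1
    rw [← h1, ENNReal.add_sub_cancel_right hbt]
  have hinv : ∀ m : ℕ, 1 ≤ m → MeasurePreserving (fun x : UnitAddCircle => m • x) μ μ →
      MeasurePreserving (fun x : UnitAddCircle => m • x) ν ν := by
    intro m hm hmp
    refine ⟨(continuous_nsmul m).measurable, ?_⟩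
    have h1 := hmp.map_eq
    rw [← hadd, Measure.map_add _ _ (continuous_nsmul m).measurable, Measure.map_smul,
      map_volume m hm] at h1
    have h2 : ∀ A : Set UnitAddCircle,
        Measure.map (fun x : UnitAddCircle => m • x) ν A = ν A := by
      intro A
      have h3 := congrArg (fun γ : Measure UnitAddCircle => γ A) h1
      simp only [Measure.add_apply] at h3
      exact (ENNReal.add_left_inj (measure_ne_top _ A)).1 h3
    exact Measure.ext fun A _ => h2 A
  have hη : AI ((1 - b)⁻¹ • ν) := by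
    refine ⟨⟨by rw [Measure.smul_apply, hmass, smul_eq_mul, ENNReal.inv_mul_cancel hd0 hdt]⟩,
      fun x => ?_, (hinv 2 (by norm_num) hμ.2.2.1).smul_measure _,
      (hinv 3 (by norm_num) hμ.2.2.2).smul_measure _⟩
    rw [Measure.smul_apply, smul_eq_mul]
    have : ν {x} = 0 := le_antisymm ((Measure.le_iff'.1 hνμ {x}).trans (hμ.2.1 x).le) zero_le
    rw [this, mul_zero]
  have h4 := hc _ hη
  refine Measure.le_iff.2 fun A hA => ?_
  have h5 := Measure.le_iff'.1 h4 A
  simp only [Measure.smul_apply, smul_eq_mul] at h5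
  have h6 : (1 - b) * c * (volume : Measure UnitAddCircle) A ≤ ν A := by
    calc (1 - b) * c * (volume : Measure UnitAddCircle) A
        = (1 - b) * (c * (volume : Measure UnitAddCircle) A) := by ring
      _ ≤ (1 - b) * ((1 - b)⁻¹ * ν A) := by gcongr
      _ = ν A := by rw [← mul_assoc, ENNReal.mul_inv_cancel hd0 hdt, one_mul]
  rw [← hadd]
  simp only [Measure.smul_apply, Measure.add_apply, smul_eq_mul, add_mul]
  rw [add_comm]
  gcongr

theorem Equi.furst (H : Equi) : Furst := by
  obtain ⟨c, hc0, hc⟩ := H.le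
  intro μ h1 h2 h3 h4
  have hμ : AI μ := ⟨h1, h2, h3, h4⟩
  have := h1
  have key : (volume : Measure UnitAddCircle) ≤ μ := by
    by_contra hcon
    set S : Set ℝ≥0∞ := {b | ∀ μ : Measure UnitAddCircle, AI μ →
      b • (volume : Measure UnitAddCircle) ≤ μ} with hS
    set s := sSup S with hs
    have hsS : s ∈ S := by
      intro μ' hμ'
      refine Measure.le_iff.2 fun A hA => ?_
      rw [Measure.smul_apply, smul_eq_mul, hs, ENNReal.sSup_mul]
      refine iSup_le fun b => iSup_le fun hb => ?_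
      have := Measure.le_iff'.1 (hb μ' hμ') A
      rwa [Measure.smul_apply, smul_eq_mul] at this
    have hs1 : s < 1 := by
      by_contra h
      rw [not_lt] at h
      apply hcon
      refine Measure.le_iff.2 fun A hA => ?_
      have := Measure.le_iff'.1 (hsS μ hμ) A
      rw [Measure.smul_apply, smul_eq_mul] at this
      refine le_trans ?_ this
      calc (volume : Measure UnitAddCircle) A = 1 * (volume : Measure UnitAddCircle) A := by
            rw [one_mul]
        _ ≤ _ := by gcongr
    have h7 := improve c hc s hs1 hsS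
    have h8 : s + (1 - s) * c ≤ s := le_sSup h7
    have h9 : 0 < (1 - s) * c := by
      apply pos_iff_ne_zero.2
      exact mul_ne_zero (tsub_pos_of_lt hs1).ne' hc0
    have h10 : s < s + (1 - s) * c := ENNReal.lt_add_right (ne_top_of_lt hs1) h9.ne'
    exact absurd h8 (not_le.2 h10)
  refine le_antisymm ?_ key
  refine Measure.le_iff.2 fun A hA => ?_
  have h5 := Measure.le_iff'.1 key Aᶜ
  have hpv : IsProbabilityMeasure (volume : Measure UnitAddCircle) :=
    ⟨UnitAddCircle.measure_univ⟩
  rw [prob_compl_eq_one_sub hA, prob_compl_eq_one_sub hA] at h5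
  have h6 : (volume : Measure UnitAddCircle) A ≤ 1 := by
    rw [← UnitAddCircle.measure_univ]; exact measure_mono (Set.subset_univ _)
  exact (ENNReal.sub_le_sub_iff_left prob_le_one ENNReal.one_ne_top).1 h5

end Pool.Agent.H635F
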