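import Pool.Agent.H635F.Gap2

set_option autoImplicit false

open MeasureTheory Filter Topology
open scoped ENNReal NNReal

namespace Pool.Agent.H635F

lemma eq_d0_of_J (μ : PM) (h : J μ = 0) : μ = d0 := by
  apply ProbabilityMeasure.toMeasure_injective
  refine ext_fourier _ _ fun k => ?_
  unfold J at h
  rw [lintegral_eq_zero_iff measurable_nn] at h
  have h1 : ∫ x, (fourier k x : ℂ) ∂(μ : Measure UnitAddCircle) =
      ∫ _, (1 : ℂ) ∂(μ : Measure UnitAddCircle) := by
    refine integral_congr_ae ?_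
    filter_upwards [h] with x hx
    have hx0 : x = 0 := by simpa using hx
    rw [hx0, fourier_eval_zero]
  have h2 : ∫ x, (fourier k x : ℂ) ∂(d0 : Measure UnitAddCircle) = 1 := by
    change ∫ x, (fourier k x : ℂ) ∂(Measure.dirac 0) = 1
    rw [integral_dirac, fourier_eval_zero]
  rw [h1, h2]
  simp

lemma tendsto_d0 (κ : ℕ → PM) (h : Tendsto (fun n => J (κ n)) atTop (𝓝 0)) :
    Tendsto κ atTop (𝓝 d0) := by
  refine tendsto_nhds_of_unique_mapClusterPt fun μ hμ => ?_
  obtain ⟨U, hU, hμU⟩ := mapClusterPt_iff_ultrafilter.1 hμ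
  apply eq_d0_of_J
  exact tendsto_nhds_unique ((continuous_J.tendsto μ).comp hμU) (h.mono_left hU)

/-- Invariance under multiplication by two and by three, for measures. -/
def Invt (μ : Measure UnitAddCircle) : Prop :=
  MeasurePreserving (fun x : UnitAddCircle => 2 • x) μ μ ∧
    MeasurePreserving (fun x : UnitAddCircle => 3 • x) μ μ

/-- The space of invariant probability measures. -/
abbrev IM := {μ : PM // Invt (μ : Measure UnitAddCircle)}

lemma invt_iff (μ : PM) : Invt (μ : Measure UnitAddCircle) ↔ Inv μ := (inv_iff μ).symm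

lemma isClosed_inv : IsClosed {μ : PM | Invt (μ : Measure UnitAddCircle)} := by
  have e : {μ : PM | Invt (μ : Measure UnitAddCircle)} = {μ : PM | Inv μ} := by
    ext μ; exact invt_iff μ
  rw [e]
  exact (isClosed_eq (continuous_push 2) continuous_id).inter
    (isClosed_eq (continuous_push 3) continuous_id)

instance : CompactSpace IM := isCompact_iff_compactSpace.1 isClosed_inv.isCompact

lemma En_eq_diag (μ : PM) : En μ = ((μ : Measure UnitAddCircle).prod (μ : Measure UnitAddCircle))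
    {p | p.1 = p.2} := by
  rw [Measure.prod_apply (isClosed_eq continuous_fst continuous_snd).measurableSet]
  unfold En
  refine lintegral_congr fun x => ?_
  congr 1
  ext y
  simp [eq_comm]

lemma En_eq_zero_iff (μ : PM) : En μ = 0 ↔ ∀ x, (μ : Measure UnitAddCircle) {x} = 0 := by
  constructor
  · intro h x
    have h1 := sq_atom_le μ x
    rw [h] at h1
    have h2 : (μ : Measure UnitAddCircle) {x} ^ 2 = 0 := le_antisymm h1 zero_le
    exact pow_eq_zero_iff (by norm_num) |>.1 h2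
  · intro h
    unfold En
    simp [h]

lemma isGδ_atomless : IsGδ {μ : PM | ∀ x, (μ : Measure UnitAddCircle) {x} = 0} := by
  have hd : IsClosed {p : UnitAddCircle × UnitAddCircle | p.1 = p.2} :=
    isClosed_eq continuous_fst continuous_snd
  let Φ : ℕ → PM → ℝ≥0∞ := fun n μ =>
    ∫⁻ p, (hd.apprSeq n p : ℝ≥0∞) ∂((μ.prod μ : ProbabilityMeasure _) : Measure (UnitAddCircle ×
      UnitAddCircle))
  have hΦc : ∀ n, Continuous (Φ n) := by
    intro n
    have h1 : Continuous fun μ : PM => μ.prod μ :=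
      ProbabilityMeasure.continuous_prod.comp (continuous_id.prodMk continuous_id)
    exact (ProbabilityMeasure.continuous_lintegral_boundedContinuousFunction
      (hd.apprSeq n)).comp h1
  have hle : ∀ n μ, En μ ≤ Φ n μ := by
    intro n μ
    rw [En_eq_diag]
    exact HasOuterApproxClosed.measure_le_lintegral hd _ n
  have hlim : ∀ μ, Tendsto (fun n => Φ n μ) atTop (𝓝 (En μ)) := by
    intro μ
    rw [En_eq_diag]
    exact HasOuterApproxClosed.tendsto_lintegral_apprSeq hd _
  have e : {μ : PM | ∀ x, (μ : Measure UnitAddCircle) {x} = 0} =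
      ⋂ m : ℕ, ⋃ n : ℕ, {μ : PM | Φ n μ < ((m : ℝ≥0∞) + 1)⁻¹} := by
    ext μ
    simp only [Set.mem_ofPred_eq, Set.mem_iInter, Set.mem_iUnion]
    rw [← En_eq_zero_iff]
    constructor
    · intro h m
      have h1 : (0 : ℝ≥0∞) < ((m : ℝ≥0∞) + 1)⁻¹ := by simp
      rw [← h] at h1
      exact ((hlim μ).eventually (Iio_mem_nhds h1)).exists
    · intro h
      by_contra hne
      obtain ⟨m, hm⟩ := ENNReal.exists_inv_nat_lt hne
      obtain ⟨n, hn⟩ := h m
      have h2 : En μ < En μ := by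
        calc En μ ≤ Φ n μ := hle n μ
          _ < ((m : ℝ≥0∞) + 1)⁻¹ := hn
          _ ≤ (m : ℝ≥0∞)⁻¹ := ENNReal.inv_le_inv.2 le_self_add
          _ < En μ := hm
      exact lt_irrefl _ h2
  rw [e]
  refine IsGδ.iInter fun m => (isOpen_iUnion fun n => ?_).isGδ
  exact isOpen_lt (hΦc n) continuous_const

/-- There are invariant measures without mass at zero arbitrarily close to the point mass. -/
def NoGap : Prop := ∀ c : ℝ≥0∞, c ≠ 0 → ∃ ν : PM, Inv ν ∧ (ν : Measure UnitAddCircle) {0} = 0 ∧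
  J ν ≤ c

/-- There are atomless invariant measures arbitrarily close to the point mass. -/
def NoGapAt : Prop := ∀ c : ℝ≥0∞, c ≠ 0 → ∃ ν : PM, Inv ν ∧
  (∀ x, (ν : Measure UnitAddCircle) {x} = 0) ∧ J ν ≤ c

theorem noGapAt_of_noGap (H : NoGap) : NoGapAt := by
  intro c hc
  obtain ⟨s, -, -, μ, -, hinv, hat, hJ⟩ := exists_atomless_gen (fun _ => True) c hc (fun c hc => by
    obtain ⟨ν, h1, h2, h3⟩ := H c hc
    exact ⟨ν, trivial, h1, atom_le_half ν h1.1 h2, h3⟩)
  refine ⟨μ, hinv, hat, hJ.trans ?_⟩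
  calc min c 1 * 2⁻¹ ^ 4 ≤ c * 1 := by
        gcongr
        · exact min_le_left _ _
        · exact pow_le_one₀ zero_le (by simp)
    _ = c := mul_one c

lemma cv_atomless (σ ν : PM) (h : ∀ x, (ν : Measure UnitAddCircle) {x} = 0) (x : UnitAddCircle) :
    (cv σ ν : Measure UnitAddCircle) {x} = 0 := by
  have hc : cv σ ν = cv ν σ := by
    apply ProbabilityMeasure.toMeasure_injective
    simp only [coe_cv]
    exact Measure.conv_comm _ _
  rw [hc]
  exact le_antisymm (cv_atom_le ν σ 0 (fun y => (h y).le) x) zero_le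

theorem dense_of_noGapAt (H : NoGapAt) :
    Dense {μ : IM | ∀ x, (μ.1 : Measure UnitAddCircle) {x} = 0} := by
  intro ν
  have hc : ∀ n : ℕ, ∃ κ : PM, Inv κ ∧ (∀ x, (κ : Measure UnitAddCircle) {x} = 0) ∧
      J κ ≤ ((n : ℝ≥0∞) + 1)⁻¹ := fun n => H _ (by simp)
  choose κ hκ1 hκ2 hκ3 using hc
  have hJ0 : Tendsto (fun n => J (κ n)) atTop (𝓝 0) := by
    have h1 : Tendsto (fun n : ℕ => ((n : ℝ≥0∞) + 1)⁻¹) atTop (𝓝 0) := by
      have h2 := ENNReal.tendsto_inv_nat_nhds_zero.comp (tendsto_add_atTop_nat 1)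
      refine h2.congr fun n => ?_
      simp
    exact tendsto_of_tendsto_of_tendsto_of_le_of_le tendsto_const_nhds h1 (fun n => zero_le) hκ3
  have hlim : Tendsto (fun n => cv ν.1 (κ n)) atTop (𝓝 ν.1) := by
    have h1 : Tendsto (fun n => cv ν.1 (κ n)) atTop (𝓝 (cv ν.1 d0)) :=
      (continuous_cv.tendsto (ν.1, d0)).comp (tendsto_const_nhds.prodMk_nhds (tendsto_d0 κ hJ0))
    rwa [cv_d0] at h1
  have hlim2 : Tendsto (fun n => (⟨cv ν.1 (κ n),
      (invt_iff _).2 (((invt_iff _).1 ν.2).cv (hκ1 n))⟩ : IM)) atTop (𝓝 ν) :=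
    tendsto_subtype_rng.2 hlim
  refine mem_closure_of_tendsto hlim2 (Eventually.of_forall fun n => ?_)
  exact cv_atomless _ _ (hκ2 n)

theorem residual_of_dense (H : Dense {μ : IM | ∀ x, (μ.1 : Measure UnitAddCircle) {x} = 0}) :
    {μ : IM | ∀ x, (μ.1 : Measure UnitAddCircle) {x} = 0} ∈ residual IM :=
  residual_of_dense_Gδ (isGδ_atomless.preimage continuous_subtype_val) H

theorem noGapAt_of_dense (S : Set IM) (hS : ∀ μ ∈ S, ∀ x, (μ.1 : Measure UnitAddCircle) {x} = 0)
    (hd : Dense S) : NoGapAt := by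
  intro c hc
  have hopen : IsOpen {μ : IM | J μ.1 < c} :=
    isOpen_lt (continuous_J.comp continuous_subtype_val) continuous_const
  obtain ⟨μ, hμ, hat⟩ := hd.inter_open_nonempty _ hopen ⟨⟨d0, (invt_iff _).2 inv_d0⟩, by
    change J d0 < c
    rw [J_d0]
    exact pos_iff_ne_zero.2 hc⟩
  exact ⟨μ.1, (invt_iff _).1 μ.2, hS μ hat, le_of_lt hμ⟩

theorem noGap_of_noGapAt (H : NoGapAt) : NoGap := fun c hc => by
  obtain ⟨ν, h1, h2, h3⟩ := H c hc
  exact ⟨ν, h1, h2 0, h3⟩

end Pool.Agent.H635F
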