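import Pool.Agent.H635F.Dich

set_option autoImplicit false

open MeasureTheory Filter Topology
open scoped ENNReal NNReal

namespace Pool.Agent.H635F

/-- Convolution powers. -/
noncomputable def cpow (ν : PM) : ℕ → PM
  | 0 => d0
  | n + 1 => cv (cpow ν n) ν

lemma F_d0 (k : ℤ) : F k d0 = 1 := by
  change ∫ x, (fourier k x : ℂ) ∂(Measure.dirac 0) = 1
  rw [integral_dirac, fourier_eval_zero]

lemma F_cpow (k : ℤ) (ν : PM) (n : ℕ) : F k (cpow ν n) = F k ν ^ n := by
  induction n with
  | zero => rw [pow_zero]; exact F_d0 k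
  | succ n ih =>
    change F k (cv (cpow ν n) ν) = _
    rw [F_cv, ih, pow_succ]

lemma J_cpow_le (ν : PM) (n : ℕ) : J (cpow ν n) ≤ n * J ν := by
  induction n with
  | zero =>
    change J d0 ≤ _
    rw [J_d0]; exact zero_le
  | succ n ih =>
    change J (cv (cpow ν n) ν) ≤ _
    refine (J_cv_le _ _).trans ?_
    push_cast
    rw [add_mul, one_mul]
    gcongr

lemma cpow_atomless (ν : PM) (h : ∀ x, (ν : Measure UnitAddCircle) {x} = 0) (n : ℕ) (hn : n ≠ 0)
    (x : UnitAddCircle) : (cpow ν n : Measure UnitAddCircle) {x} = 0 := by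
  obtain ⟨m, rfl⟩ := Nat.exists_eq_succ_of_ne_zero hn
  exact cv_atomless _ _ h x

/-- Poisson weights. -/
noncomputable def w (s : ℝ) (j : ℕ) : ℝ := Real.exp (-s) * (s ^ j / j.factorial)

lemma w_nonneg {s : ℝ} (hs : 0 ≤ s) (j : ℕ) : 0 ≤ w s j := by
  unfold w; positivity

lemma hasSum_w (s : ℝ) : HasSum (w s) 1 := by
  have h1 := NormedSpace.expSeries_div_hasSum_exp (𝔸 := ℝ) s
  have h2 := h1.mul_left (Real.exp (-s))
  rw [← Real.exp_eq_exp_ℝ, ← Real.exp_add, neg_add_cancel, Real.exp_zero] at h2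
  exact h2

/-- The compound Poisson measure `exp (s (ν - δ₀))` as a measure. -/
noncomputable def poi (s : ℝ) (ν : PM) : Measure UnitAddCircle :=
  Measure.sum fun j : ℕ => ENNReal.ofReal (w s j) • (cpow ν j : Measure UnitAddCircle)

lemma poi_univ {s : ℝ} (hs : 0 ≤ s) (ν : PM) : poi s ν Set.univ = 1 := by
  unfold poi
  rw [Measure.sum_apply _ MeasurableSet.univ]
  simp only [Measure.smul_apply, measure_univ, smul_eq_mul, mul_one]
  rw [← ENNReal.ofReal_tsum_of_nonneg (w_nonneg hs) (hasSum_w s).summable, (hasSum_w s).tsum_eq,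
    ENNReal.ofReal_one]

/-- The compound Poisson measure as a probability measure. -/
noncomputable def expm (s : ℝ) (hs : 0 ≤ s) (ν : PM) : PM := ⟨poi s ν, ⟨poi_univ hs ν⟩⟩

lemma F_expm (s : ℝ) (hs : 0 ≤ s) (ν : PM) (k : ℤ) :
    F k (expm s hs ν) = Complex.exp (s * (F k ν - 1)) := by
  have hfin : IsFiniteMeasure (poi s ν) := ⟨by rw [poi_univ hs]; exact ENNReal.one_lt_top⟩
  have h1 := hasSum_integral_measure (μ := fun j : ℕ =>
    ENNReal.ofReal (w s j) • (cpow ν j : Measure UnitAddCircle))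
    (f := fun x : UnitAddCircle => (fourier k x : ℂ)) (integrable_fourier k (poi s ν))
  have h2 : ∀ j : ℕ, ∫ x, (fourier k x : ℂ)
      ∂(ENNReal.ofReal (w s j) • (cpow ν j : Measure UnitAddCircle)) =
      Complex.exp (-s) * ((s * F k ν) ^ j / j.factorial) := by
    intro j
    rw [integral_smul_measure, ENNReal.toReal_ofReal (w_nonneg hs j)]
    change w s j • F k (cpow ν j) = _
    rw [F_cpow, Complex.real_smul]
    unfold w
    push_cast
    rw [mul_pow]
    ring
  simp only [h2] at h1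
  have h3 := (NormedSpace.expSeries_div_hasSum_exp (𝔸 := ℂ) (s * F k ν)).mul_left
    (Complex.exp (-s))
  rw [← Complex.exp_eq_exp_ℂ, ← Complex.exp_add] at h3
  have h4 := h1.unique h3
  change ∫ x, (fourier k x : ℂ) ∂(poi s ν) = _
  have h5 : (-(s : ℂ) + s * F k ν) = s * (F k ν - 1) := by ring
  rw [h5] at h4
  exact h4

lemma expm_atom (ν : PM) (h : ∀ x, (ν : Measure UnitAddCircle) {x} = 0) (z : UnitAddCircle) :
    (expm 1 zero_le_one ν : Measure UnitAddCircle) {z} ≤ 2⁻¹ := by
  change poi 1 ν {z} ≤ 2⁻¹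
  unfold poi
  rw [Measure.sum_apply _ (measurableSet_singleton z), tsum_eq_single 0]
  · rw [Measure.smul_apply, smul_eq_mul]
    calc ENNReal.ofReal (w 1 0) * (cpow ν 0 : Measure UnitAddCircle) {z}
        ≤ ENNReal.ofReal (w 1 0) * 1 := by gcongr; exact prob_le_one
      _ ≤ ENNReal.ofReal 2⁻¹ := by
          rw [mul_one]
          apply ENNReal.ofReal_le_ofReal
          unfold w
          simp only [pow_zero, Nat.factorial_zero, Nat.cast_one, div_one, mul_one]
          rw [Real.exp_neg]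
          apply inv_anti₀ (by norm_num)
          have := Real.add_one_le_exp 1
          linarith
      _ = 2⁻¹ := by
          rw [ENNReal.ofReal_inv_of_pos (by norm_num)]
          simp
  · intro j hj
    rw [Measure.smul_apply, cpow_atomless ν h j hj, smul_zero]

lemma J_expm_le : ∃ C : ℝ≥0∞, C ≠ ⊤ ∧ C ≠ 0 ∧ ∀ ν : PM, J (expm 1 zero_le_one ν) ≤ C * J ν := by
  refine ⟨(∑' j : ℕ, ENNReal.ofReal (w 1 j) * j) + 1, ?_, by simp, fun ν => ?_⟩
  · apply ENNReal.add_ne_top.2 ⟨?_, ENNReal.one_ne_top⟩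
    have h1 : ∀ j : ℕ, ENNReal.ofReal (w 1 j) * j = ENNReal.ofReal (w 1 j * j) := by
      intro j
      rw [ENNReal.ofReal_mul (w_nonneg zero_le_one j), ENNReal.ofReal_natCast]
    simp only [h1]
    have hs : Summable fun j : ℕ => w 1 j * j := by
      refine Summable.of_nonneg_of_le (fun j => mul_nonneg (w_nonneg zero_le_one j) (by positivity))
        (fun j => ?_) ((Real.summable_pow_div_factorial 2).mul_left (Real.exp (-1)))
      unfold w
      rw [one_pow, mul_assoc]
      have h2 : (j : ℝ) ≤ 2 ^ j := by exact_mod_cast Nat.lt_two_pow_self.le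
      have h3 : (1 : ℝ) / j.factorial * j ≤ 2 ^ j / j.factorial := by
        rw [div_mul_eq_mul_div, one_mul]
        gcongr
      gcongr
    rw [← ENNReal.ofReal_tsum_of_nonneg
      (fun j => mul_nonneg (w_nonneg zero_le_one j) (by positivity)) hs]
    exact ENNReal.ofReal_ne_top
  · change ∫⁻ x, (‖x‖₊ : ℝ≥0∞) ∂(poi 1 ν) ≤ _
    unfold poi
    rw [lintegral_sum_measure]
    calc ∑' j : ℕ, ∫⁻ x, (‖x‖₊ : ℝ≥0∞) ∂(ENNReal.ofReal (w 1 j) • (cpow ν j :
          Measure UnitAddCircle)) ≤ ∑' j : ℕ, (ENNReal.ofReal (w 1 j) * j) * J ν := by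
          refine ENNReal.tsum_le_tsum fun j => ?_
          rw [lintegral_smul_measure, smul_eq_mul, mul_assoc]
          have := J_cpow_le ν j
          unfold J at this ⊢
          gcongr
      _ = (∑' j : ℕ, ENNReal.ofReal (w 1 j) * j) * J ν := ENNReal.tsum_mul_right
      _ ≤ _ := by
          gcongr
          exact le_self_add

lemma F_push' (k : ℤ) (m : ℕ) (μ : PM) : F k (push m μ) = F (k * m) μ := by
  unfold F
  rw [coe_push, integral_map (continuous_nsmul m).measurable.aemeasurable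
    (fourier k).continuous.aestronglyMeasurable]
  refine integral_congr_ae (Eventually.of_forall fun x => ?_)
  simp [fourier_apply, mul_smul]

lemma inv_iff_F (μ : PM) : Inv μ ↔ ∀ k : ℤ, F (k * (2 : ℕ)) μ = F k μ ∧ F (k * (3 : ℕ)) μ = F k μ := by
  constructor
  · intro h k
    rw [← F_push', ← F_push', h.1, h.2]
    exact ⟨rfl, rfl⟩
  · intro h
    constructor
    · apply ProbabilityMeasure.toMeasure_injective
      refine ext_fourier _ _ fun k => ?_
      change F k (push 2 μ) = F k μ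
      rw [F_push', (h k).1]
    · apply ProbabilityMeasure.toMeasure_injective
      refine ext_fourier _ _ fun k => ?_
      change F k (push 3 μ) = F k μ
      rw [F_push', (h k).2]

lemma inv_expm (s : ℝ) (hs : 0 ≤ s) (ν : PM) (h : Inv ν) : Inv (expm s hs ν) := by
  rw [inv_iff_F] at h ⊢
  intro k
  simp only [F_expm]
  rw [(h k).1, (h k).2]
  exact ⟨rfl, rfl⟩

lemma inv_pc (s : ℕ → PM) (h : ∀ n, Inv (s n)) (n : ℕ) : Inv (pc s n) := by
  induction n with
  | zero => exact inv_d0
  | succ n ih => exact ih.cv (h n)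

end Pool.Agent.H635F
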