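import Pool.Agent.H635F.Gap

set_option autoImplicit false

open MeasureTheory Filter Topology
open scoped ENNReal NNReal

namespace Pool.Agent.H635F

/-- Furstenberg's conjecture for multiplication by two and by three. -/
def Furst : Prop := ∀ μ : Measure UnitAddCircle, IsProbabilityMeasure μ → (∀ x, μ {x} = 0) →
  MeasurePreserving (fun x : UnitAddCircle => 2 • x) μ μ →
    MeasurePreserving (fun x : UnitAddCircle => 3 • x) μ μ → μ = volume

lemma inv_iff (μ : PM) : Inv μ ↔
    MeasurePreserving (fun x : UnitAddCircle => 2 • x) (μ : Measure UnitAddCircle) μ ∧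
    MeasurePreserving (fun x : UnitAddCircle => 3 • x) (μ : Measure UnitAddCircle) μ := by
  constructor
  · rintro ⟨h2, h3⟩
    refine ⟨⟨(continuous_nsmul 2).measurable, ?_⟩, ⟨(continuous_nsmul 3).measurable, ?_⟩⟩
    · exact congrArg ProbabilityMeasure.toMeasure h2
    · exact congrArg ProbabilityMeasure.toMeasure h3
  · rintro ⟨h2, h3⟩
    exact ⟨ProbabilityMeasure.toMeasure_injective h2.map_eq,
      ProbabilityMeasure.toMeasure_injective h3.map_eq⟩

lemma J_volume : (2⁻¹ : ℝ≥0∞) ^ 3 ≤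
    ∫⁻ x : UnitAddCircle, (‖x‖₊ : ℝ≥0∞) ∂(volume : Measure UnitAddCircle) := by
  have h1 : (volume : Measure UnitAddCircle) (Metric.closedBall (0 : UnitAddCircle) (1 / 4)) =
      2⁻¹ := by
    rw [AddCircle.volume_closedBall]
    rw [min_eq_right (by norm_num)]
    rw [show (2 : ℝ) * (1 / 4) = 2⁻¹ by norm_num, ENNReal.ofReal_inv_of_pos (by norm_num)]
    simp
  have h2 : (volume : Measure UnitAddCircle) (Metric.closedBall (0 : UnitAddCircle) (1 / 4))ᶜ =
      2⁻¹ := by
    rw [measure_compl Metric.isClosed_closedBall.measurableSet (measure_ne_top _ _), h1,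
      UnitAddCircle.measure_univ, ENNReal.one_sub_inv_two]
  calc (2⁻¹ : ℝ≥0∞) ^ 3 = ∫⁻ _ in (Metric.closedBall (0 : UnitAddCircle) (1 / 4))ᶜ,
        (2⁻¹ : ℝ≥0∞) ^ 2 ∂(volume : Measure UnitAddCircle) := by
        rw [setLIntegral_const, h2]; ring
    _ ≤ ∫⁻ x in (Metric.closedBall (0 : UnitAddCircle) (1 / 4))ᶜ, (‖x‖₊ : ℝ≥0∞)
          ∂(volume : Measure UnitAddCircle) := by
        refine setLIntegral_mono measurable_nn fun x hx => ?_
        rw [Set.mem_compl_iff, Metric.mem_closedBall, dist_zero_right, not_le] at hx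
        have : (2⁻¹ : ℝ≥0) ^ 2 ≤ ‖x‖₊ := by
          rw [← NNReal.coe_le_coe]
          push_cast
          norm_num
          linarith
        have h3 := ENNReal.coe_le_coe.2 this
        rw [ENNReal.coe_pow, ENNReal.coe_inv (by norm_num), ENNReal.coe_ofNat] at h3
        exact h3
    _ ≤ _ := setLIntegral_le_lintegral _ _

/-- The gap at zero under Furstenberg's conjecture. -/
theorem gap (H : Furst) : ∃ c : ℝ≥0∞, c ≠ 0 ∧ c ≠ ⊤ ∧ ∀ ν : PM, Inv ν →
    (ν : Measure UnitAddCircle) {0} = 0 → c ≤ J ν := by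
  by_contra hcon
  push Not at hcon
  obtain ⟨μ, hinv, hat, hJ⟩ := exists_atomless (fun c hc => by
    obtain ⟨ν, h1, h2, h3⟩ := hcon (min c 1) (by
      rw [← pos_iff_ne_zero, lt_min_iff]
      exact ⟨pos_iff_ne_zero.2 hc, one_pos⟩) (by simp)
    exact ⟨ν, h1, h2, h3.le.trans (min_le_left _ _)⟩)
  have h := H μ inferInstance hat ((inv_iff μ).1 hinv).1 ((inv_iff μ).1 hinv).2
  unfold J at hJ
  rw [h] at hJ
  have h5 := J_volume.trans hJ
  have h6 : (2⁻¹ : ℝ≥0∞) ^ 4 < 2⁻¹ ^ 3 := by
    rw [pow_succ _ 3]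
    have : (2⁻¹ : ℝ≥0∞) ^ 3 * 2⁻¹ = 2⁻¹ ^ 3 / 2 := by rw [div_eq_mul_inv]
    rw [this]
    exact ENNReal.half_lt_self (pow_ne_zero _ (by simp)) (by simp)
  exact absurd h5 (not_le.2 h6)

lemma J_push (m : ℕ) (μ : PM) :
    J (push m μ) = ∫⁻ x, (‖m • x‖₊ : ℝ≥0∞) ∂(μ : Measure UnitAddCircle) := by
  unfold J
  rw [coe_push, lintegral_map measurable_nn (continuous_nsmul m).measurable]

lemma push_push (m n : ℕ) (μ : PM) : push m (push n μ) = push n (push m μ) := by
  apply ProbabilityMeasure.toMeasure_injective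
  simp only [coe_push]
  rw [Measure.map_map (continuous_nsmul m).measurable (continuous_nsmul n).measurable,
    Measure.map_map (continuous_nsmul n).measurable (continuous_nsmul m).measurable]
  congr 1
  funext x
  simp only [Function.comp]
  rw [smul_comm]

lemma Inv.push {μ : PM} (h : Inv μ) (m : ℕ) : Inv (push m μ) :=
  ⟨by rw [push_push, h.1], by rw [push_push, h.2]⟩

/-- The set of torsion points. -/
def Tor : Set UnitAddCircle := {x | ∃ m : ℕ, 1 ≤ m ∧ m • x = 0}

lemma Tor_countable : Tor.Countable := by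
  have : Tor = ⋃ m : ℕ, {x : UnitAddCircle | 1 ≤ m ∧ m • x = 0} := by
    ext x; simp [Tor]
  rw [this]
  refine Set.countable_iUnion fun m => ?_
  by_cases hm : 1 ≤ m
  · exact ((AddCircle.finite_torsion (1 : ℝ) hm).subset fun x hx => hx.2).countable
  · have e : {x : UnitAddCircle | 1 ≤ m ∧ m • x = 0} = ∅ := by
      ext x; simp; intro h; omega
    rw [e]; exact Set.countable_empty

lemma mem_Tor_smul {x : UnitAddCircle} (m : ℕ) (hm : 1 ≤ m) : m • x ∈ Tor ↔ x ∈ Tor := by
  constructor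
  · rintro ⟨k, hk, h⟩
    exact ⟨k * m, Nat.mul_pos hk hm, by rw [mul_nsmul']; exact h⟩
  · rintro ⟨k, hk, h⟩
    exact ⟨k, hk, by rw [smul_comm, h, smul_zero]⟩

lemma atom_nontorsion (ρ : PM) (h2 : push 2 ρ = ρ) (x : UnitAddCircle) (hx : x ∉ Tor) :
    (ρ : Measure UnitAddCircle) {x} = 0 := by
  by_contra hne
  have hmono : ∀ y, (ρ : Measure UnitAddCircle) {y} ≤ (ρ : Measure UnitAddCircle) {2 • y} := by
    intro y
    calc (ρ : Measure UnitAddCircle) {y} ≤ (ρ : Measure UnitAddCircle)
          ((fun x : UnitAddCircle => 2 • x) ⁻¹' {2 • y}) := measure_mono (by simp)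
      _ = (push 2 ρ : Measure UnitAddCircle) {2 • y} := by
          rw [coe_push, Measure.map_apply (continuous_nsmul 2).measurable
            (measurableSet_singleton _)]
      _ = _ := by rw [h2]
  have hk : ∀ k : ℕ, (ρ : Measure UnitAddCircle) {x} ≤
      (ρ : Measure UnitAddCircle) {(2 ^ k) • x} := by
    intro k
    induction k with
    | zero => simp
    | succ k ih =>
      refine ih.trans ((hmono _).trans ?_)
      rw [← mul_nsmul', ← pow_succ']
  have hinj : Function.Injective fun k : ℕ => (2 ^ k) • x := by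
    have key : ∀ a b : ℕ, a < b → (2 ^ a) • x ≠ (2 ^ b) • x := by
      intro a b hab h
      apply hx
      have hlt : 2 ^ a < 2 ^ b := Nat.pow_lt_pow_right (by norm_num) hab
      refine ⟨2 ^ b - 2 ^ a, by omega, ?_⟩
      have h3 : (2 ^ b) • x = (2 ^ b - 2 ^ a) • x + (2 ^ a) • x := by
        rw [← add_nsmul, Nat.sub_add_cancel hlt.le]
      rw [h3] at h
      simpa using h
    intro a b h
    rcases lt_trichotomy a b with hab | hab | hab
    · exact absurd h (key a b hab)
    · exact hab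
    · exact absurd h.symm (key b a hab)
  have hinf : (Set.range fun k : ℕ => (2 ^ k) • x).Infinite := Set.infinite_range_of_injective hinj
  have := hinf.meas_eq_top (μ := (ρ : Measure UnitAddCircle))
    ⟨(ρ : Measure UnitAddCircle) {x}, hne, by rintro y ⟨k, rfl⟩; exact hk k⟩
  exact absurd this (measure_ne_top _ _)

end Pool.Agent.H635F
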