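import Pool.Agent.H635F.Equi

set_option autoImplicit false

open MeasureTheory Filter Topology
open scoped ENNReal NNReal

namespace Pool.Agent.H635F

lemma meas_Tor : MeasurableSet Tor := Tor_countable.measurableSet

lemma nn_le_half (x : UnitAddCircle) : (‖x‖₊ : ℝ≥0∞) ≤ 2⁻¹ := by
  have h := AddCircle.norm_le_half_period (1 : ℝ) (x := x) one_ne_zero
  have h2 : ‖x‖₊ ≤ (2 : ℝ≥0)⁻¹ := by
    rw [← NNReal.coe_le_coe]
    push_cast
    simpa using h
  have h3 := ENNReal.coe_le_coe.2 h2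
  rw [ENNReal.coe_inv (by norm_num), ENNReal.coe_ofNat] at h3
  exact h3

lemma nontorsion_mass (ρ : PM) (c : ℝ≥0∞) (hc : ∀ m : ℕ, 1 ≤ m → c ≤ J (push m ρ)) :
    c ≤ (ρ : Measure UnitAddCircle) Torᶜ * 2⁻¹ := by
  have hm : ∀ m : ℕ, Measurable fun x : UnitAddCircle => (‖m • x‖₊ : ℝ≥0∞) := fun m =>
    measurable_nn.comp (continuous_nsmul m).measurable
  have h1 : ∀ m : ℕ, 1 ≤ m → c ≤ (∫⁻ x in Tor, (‖m • x‖₊ : ℝ≥0∞) ∂(ρ : Measure UnitAddCircle)) +
      (ρ : Measure UnitAddCircle) Torᶜ * 2⁻¹ := by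
    intro m hm1
    refine (hc m hm1).trans ?_
    rw [J_push, ← lintegral_add_compl _ meas_Tor]
    gcongr
    calc ∫⁻ x in Torᶜ, (‖m • x‖₊ : ℝ≥0∞) ∂(ρ : Measure UnitAddCircle)
        ≤ ∫⁻ _ in Torᶜ, 2⁻¹ ∂(ρ : Measure UnitAddCircle) :=
          lintegral_mono fun x => nn_le_half _
      _ = _ := by rw [setLIntegral_const, mul_comm]
  have h2 : Tendsto (fun n : ℕ => ∫⁻ x in Tor, (‖n.factorial • x‖₊ : ℝ≥0∞)
      ∂(ρ : Measure UnitAddCircle)) atTop (𝓝 (∫⁻ _ in Tor, 0 ∂(ρ : Measure UnitAddCircle))) := by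
    refine tendsto_lintegral_of_dominated_convergence (fun _ => 2⁻¹) (fun n => hm _)
      (fun n => Eventually.of_forall fun x => nn_le_half _) ?_ ?_
    · rw [setLIntegral_const]
      exact ENNReal.mul_ne_top (by simp) (measure_ne_top _ _)
    · rw [ae_restrict_iff' meas_Tor]
      refine Eventually.of_forall fun x hx => ?_
      obtain ⟨k, hk, h⟩ := hx
      refine tendsto_const_nhds.congr' ?_
      filter_upwards [eventually_ge_atTop k] with n hn
      obtain ⟨q, hq⟩ := Nat.dvd_factorial hk hn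
      rw [hq, mul_comm, mul_nsmul', h]
      simp
  simp only [lintegral_const, zero_mul] at h2
  have h3 := h2.add_const ((ρ : Measure UnitAddCircle) Torᶜ * 2⁻¹)
  rw [zero_add] at h3
  exact ge_of_tendsto h3 (Eventually.of_forall fun n => h1 _ (Nat.factorial_pos n))

lemma restrict_eq (H : Furst) (ρ : PM) (hρ : Inv ρ)
    (ht : (ρ : Measure UnitAddCircle) Torᶜ ≠ 0) :
    (ρ : Measure UnitAddCircle).restrict Torᶜ =
      (ρ : Measure UnitAddCircle) Torᶜ • (volume : Measure UnitAddCircle) := by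
  set t := (ρ : Measure UnitAddCircle) Torᶜ with htdef
  have htt : t ≠ ⊤ := measure_ne_top _ _
  obtain ⟨h2, h3⟩ := (inv_iff ρ).1 hρ
  have hpre : ∀ m : ℕ, 1 ≤ m → (fun x : UnitAddCircle => m • x) ⁻¹' Torᶜ = Torᶜ := by
    intro m hm
    ext x
    simp only [Set.mem_preimage, Set.mem_compl_iff]
    rw [mem_Tor_smul m hm]
  have h2' := h2.restrict_preimage meas_Tor.compl
  rw [hpre 2 (by norm_num)] at h2'
  have h3' := h3.restrict_preimage meas_Tor.compl
  rw [hpre 3 (by norm_num)] at h3'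
  have hη := H (t⁻¹ • (ρ : Measure UnitAddCircle).restrict Torᶜ)
    ⟨by rw [Measure.smul_apply, Measure.restrict_apply_univ, smul_eq_mul, ← htdef,
      ENNReal.inv_mul_cancel ht htt]⟩
    (fun x => by
      rw [Measure.smul_apply, Measure.restrict_apply (measurableSet_singleton x), smul_eq_mul]
      by_cases hx : x ∈ Tor
      · have : ({x} : Set UnitAddCircle) ∩ Torᶜ = ∅ := by
          ext y; simp; rintro rfl; exact hx
        rw [this, measure_empty, mul_zero]
      · have h0 := atom_nontorsion ρ hρ.1 x hx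
        rw [measure_mono_null Set.inter_subset_left h0, mul_zero])
    (h2'.smul_measure t⁻¹) (h3'.smul_measure t⁻¹)
  rw [← hη, smul_smul, ENNReal.mul_inv_cancel ht htt, one_smul]

/-- A limit of invariant measures which leave every finite orbit dominates a multiple of Lebesgue
measure. -/
lemma dominate (H : Furst) (ρ : PM) (hρ : Inv ρ) (c : ℝ≥0∞) (hc0 : c ≠ 0)
    (hc : ∀ m : ℕ, 1 ≤ m → c ≤ J (push m ρ)) (f : C(UnitAddCircle, ℝ)) (hf : ∀ x, 0 ≤ f x) :
    2 * c.toReal * ∫ x, f x ∂(volume : Measure UnitAddCircle) ≤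
      ∫ x, f x ∂(ρ : Measure UnitAddCircle) := by
  have h1 := nontorsion_mass ρ c hc
  have ht : (ρ : Measure UnitAddCircle) Torᶜ ≠ 0 := by
    intro h
    rw [h, zero_mul] at h1
    exact hc0 (le_antisymm h1 zero_le)
  have h2 := restrict_eq H ρ hρ ht
  have h3 : ∫ x in Torᶜ, f x ∂(ρ : Measure UnitAddCircle) ≤
      ∫ x, f x ∂(ρ : Measure UnitAddCircle) :=
    setIntegral_le_integral
      (f.continuous.integrable_of_hasCompactSupport (HasCompactSupport.of_compactSpace _))
      (Eventually.of_forall hf)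
  rw [h2, integral_smul_measure, smul_eq_mul] at h3
  refine le_trans ?_ h3
  have h4 : 2 * c.toReal ≤ ((ρ : Measure UnitAddCircle) Torᶜ).toReal := by
    have h5 := ENNReal.toReal_mono (ENNReal.mul_ne_top (measure_ne_top _ _) (by simp)) h1
    rw [ENNReal.toReal_mul, ENNReal.toReal_inv, ENNReal.toReal_ofNat] at h5
    linarith
  have h6 : 0 ≤ ∫ x, f x ∂(volume : Measure UnitAddCircle) := integral_nonneg hf
  gcongr

/-- Positive proportion equidistribution of invariant measures leaving every finite orbit. -/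
theorem equi (H : Furst) : ∃ c : ℝ, 0 < c ∧
    (∀ ν : PM, Inv ν → (ν : Measure UnitAddCircle) {0} = 0 →
      c ≤ ∫ x, ‖x‖ ∂(ν : Measure UnitAddCircle)) ∧
    ∀ f : C(UnitAddCircle, ℝ), (∀ x, 0 ≤ f x) → ∀ ε : ℝ, 0 < ε → ∃ Q : ℕ, ∀ ν : PM, Inv ν →
      (ν : Measure UnitAddCircle) {x | ∃ m : ℕ, 1 ≤ m ∧ m ≤ Q ∧ m • x = 0} = 0 →
        c * ∫ x, f x ∂(volume : Measure UnitAddCircle) - ε ≤
          ∫ x, f x ∂(ν : Measure UnitAddCircle) := by
  obtain ⟨c, hc0, hct, hc⟩ := gap H
  have hpos : 0 < c.toReal := ENNReal.toReal_pos hc0 hct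
  refine ⟨c.toReal, hpos, fun ν hν h0 => ?_, fun f hf ε hε => ?_⟩
  · have h1 := hc ν hν h0
    have h2 : ∫ x, ‖x‖ ∂(ν : Measure UnitAddCircle) = (J ν).toReal := by
      unfold J
      rw [integral_eq_lintegral_of_nonneg_ae (Eventually.of_forall fun x => norm_nonneg x)
        continuous_norm.aestronglyMeasurable]
      congr 1
      refine lintegral_congr fun x => ?_
      rw [← coe_nnnorm, ENNReal.ofReal_coe_nnreal]
    rw [h2]
    refine ENNReal.toReal_mono ?_ h1
    refine ne_top_of_le_ne_top (b := 2⁻¹) (by simp) ?_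
    unfold J
    calc _ ≤ ∫⁻ _, 2⁻¹ ∂(ν : Measure UnitAddCircle) := lintegral_mono fun x => nn_le_half x
      _ = _ := by simp
  · by_contra hcon
    push Not at hcon
    choose ν hinv htor hlt using hcon
    let U : Ultrafilter ℕ := hyperfilter ℕ
    have hU : (U : Filter ℕ) ≤ atTop := Nat.hyperfilter_le_atTop
    obtain ⟨ρ, hρ⟩ := exists_ulim ν U
    have hρinv : Inv ρ := by
      refine ⟨?_, ?_⟩
      · refine tendsto_nhds_unique (((continuous_push 2).tendsto ρ).comp hρ)
          (hρ.congr fun n => ?_)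
        exact (hinv n).1.symm
      · refine tendsto_nhds_unique (((continuous_push 3).tendsto ρ).comp hρ)
          (hρ.congr fun n => ?_)
        exact (hinv n).2.symm
    have hρc : ∀ m : ℕ, 1 ≤ m → c ≤ J (push m ρ) := by
      intro m hm
      have h1 : Tendsto (fun n => J (push m (ν n))) U (𝓝 (J (push m ρ))) :=
        ((continuous_J.comp (continuous_push m)).tendsto ρ).comp hρ
      refine ge_of_tendsto h1 ?_
      filter_upwards [hU (eventually_ge_atTop m)] with n hn
      refine hc _ ((hinv n).push m) ?_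
      rw [coe_push, Measure.map_apply (continuous_nsmul m).measurable (measurableSet_singleton _)]
      refine measure_mono_null ?_ (htor n)
      intro x hx
      exact ⟨m, hm, hn, hx⟩
    have h1 := dominate H ρ hρinv c hc0 hρc f hf
    have h2 : Tendsto (fun n => ∫ x, f x ∂(ν n : Measure UnitAddCircle)) U
        (𝓝 (∫ x, f x ∂(ρ : Measure UnitAddCircle))) :=
      ((ProbabilityMeasure.continuous_integral_continuousMap f).tendsto ρ).comp hρ
    have h3 : ∫ x, f x ∂(ρ : Measure UnitAddCircle) ≤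
        c.toReal * ∫ x, f x ∂(volume : Measure UnitAddCircle) - ε :=
      le_of_tendsto h2 (Eventually.of_forall fun n => (hlt n).le)
    have h4 : 0 ≤ ∫ x, f x ∂(volume : Measure UnitAddCircle) := integral_nonneg hf
    nlinarith

end Pool.Agent.H635F
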