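import Pool.Agent.H635F.Div

set_option autoImplicit false

open MeasureTheory Filter Topology
open scoped ENNReal NNReal

namespace Pool.Agent.H635F

/-- Lebesgue measure as a probability measure. -/
noncomputable def vol : PM := ⟨volume, ⟨UnitAddCircle.measure_univ⟩⟩

lemma F_vol (k : ℤ) (hk : k ≠ 0) : F k vol = 0 := F_volume k hk

lemma F_zero (μ : PM) : F 0 μ = 1 := by
  unfold F
  simp

lemma eq_vol (μ : PM) (h : ∀ k : ℤ, k ≠ 0 → F k μ = 0) : μ = vol :=
  ProbabilityMeasure.toMeasure_injective (eq_volume μ h)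

lemma inv_vol : Inv vol := by
  rw [inv_iff_F]
  intro k
  by_cases hk : k = 0
  · subst hk
    simp
  · rw [F_vol k hk, F_vol (k * (2 : ℕ)) (mul_ne_zero hk (by norm_num)),
      F_vol (k * (3 : ℕ)) (mul_ne_zero hk (by norm_num))]
    exact ⟨rfl, rfl⟩

lemma expm_vol_ne (n : ℕ) : expm n (Nat.cast_nonneg n) vol ≠ vol := by
  intro h
  have h1 := congrArg (F 1) h
  rw [F_expm, F_vol 1 one_ne_zero] at h1
  exact Complex.exp_ne_zero _ h1

lemma tendsto_expm_vol : Tendsto (fun n : ℕ => expm n (Nat.cast_nonneg n) vol) atTop (𝓝 vol) := by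
  refine tendsto_nhds_of_unique_mapClusterPt fun μ hμ => ?_
  obtain ⟨U, hU, hμU⟩ := mapClusterPt_iff_ultrafilter.1 hμ
  refine eq_vol μ fun k hk => ?_
  have h1 : Tendsto (fun n : ℕ => F k (expm n (Nat.cast_nonneg n) vol)) U (𝓝 (F k μ)) :=
    ((continuous_F k).tendsto μ).comp hμU
  have h2 : Tendsto (fun n : ℕ => F k (expm n (Nat.cast_nonneg n) vol)) atTop (𝓝 0) := by
    simp only [F_expm, F_vol k hk]
    rw [tendsto_zero_iff_norm_tendsto_zero]
    have h3 : ∀ n : ℕ, ‖Complex.exp (((n : ℝ) : ℂ) * (0 - 1))‖ = Real.exp (-(n : ℝ)) := by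
      intro n
      rw [Complex.norm_exp]
      simp
    simp only [h3]
    exact Real.tendsto_exp_neg_atTop_nhds_zero.comp tendsto_natCast_atTop_atTop
  exact tendsto_nhds_unique h1 (h2.mono_left hU)

/-- The set of counterexamples to Furstenberg's conjecture in the space of invariant measures. -/
def CE : Set IM := {μ : IM | (∀ x, (μ.1 : Measure UnitAddCircle) {x} = 0) ∧
  (μ.1 : Measure UnitAddCircle) ≠ volume}

lemma ne_vol_residual : {μ : IM | (μ.1 : Measure UnitAddCircle) ≠ volume} ∈ residual IM := by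
  let v : IM := ⟨vol, (invt_iff _).2 inv_vol⟩
  have e : {μ : IM | (μ.1 : Measure UnitAddCircle) ≠ volume} = {v}ᶜ := by
    ext μ
    simp only [Set.mem_ofPred_eq, Set.mem_compl_iff, Set.mem_singleton_iff]
    refine not_congr ⟨fun h => ?_, fun h => ?_⟩
    · exact Subtype.ext (ProbabilityMeasure.toMeasure_injective h)
    · rw [h]; rfl
  rw [e]
  refine residual_of_dense_open isClosed_singleton.isOpen_compl ?_
  intro ν
  by_cases hν : ν = v
  · subst hν
    have hlim : Tendsto (fun n : ℕ => (⟨expm n (Nat.cast_nonneg n) vol,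
        (invt_iff _).2 (inv_expm _ _ _ inv_vol)⟩ : IM)) atTop (𝓝 v) :=
      tendsto_subtype_rng.2 tendsto_expm_vol
    refine mem_closure_of_tendsto hlim (Eventually.of_forall fun n => ?_)
    intro h
    rw [Set.mem_singleton_iff] at h
    exact expm_vol_ne n (congrArg Subtype.val h)
  · exact subset_closure hν

theorem ce_residual (H : NoGapAt) : CE ∈ residual IM :=
  Filter.inter_mem (residual_of_dense (dense_of_noGapAt H)) ne_vol_residual

/-- Infinite divisibility in the convolution semigroup of invariant measures. -/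
def Divis (μ : PM) : Prop := ∀ m : ℕ, 1 ≤ m → ∃ ρ : PM, Inv ρ ∧ cpow ρ m = μ

lemma F_pc_pow (k : ℤ) (a b : ℕ → PM) (m : ℕ) (h : ∀ n, F k (a n) ^ m = F k (b n)) (n : ℕ) :
    F k (pc a n) ^ m = F k (pc b n) := by
  induction n with
  | zero =>
    change F k d0 ^ m = F k d0
    rw [F_d0, one_pow]
  | succ n ih =>
    change F k (cv (pc a n) (a n)) ^ m = F k (cv (pc b n) (b n))
    rw [F_cv, F_cv, mul_pow, ih, h]

theorem exists_div (H : NoGapAt) : ∃ μ : PM, Inv μ ∧ (∀ x, (μ : Measure UnitAddCircle) {x} = 0) ∧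
    (μ : Measure UnitAddCircle) ≠ volume ∧ Divis μ := by
  obtain ⟨C, hCt, hC0, hC⟩ := J_expm_le
  obtain ⟨s, hs, -, μ, hμ, hinv, hat, hJ⟩ := exists_atomless_gen
    (fun κ => ∃ ν : PM, Inv ν ∧ κ = expm 1 zero_le_one ν) 1 one_ne_zero (fun c hc => by
      obtain ⟨ν, h1, h2, h3⟩ := H (c / C) (by
        rw [Ne, ENNReal.div_eq_zero_iff]
        push Not
        exact ⟨hc, hCt⟩)
      refine ⟨expm 1 zero_le_one ν, ⟨ν, h1, rfl⟩, inv_expm _ _ _ h1, expm_atom ν h2, ?_⟩
      refine (hC ν).trans ?_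
      calc C * J ν ≤ C * (c / C) := by gcongr
        _ ≤ c := ENNReal.mul_div_le)
  choose ν hν hsν using hs
  obtain ⟨U, hU, hμU⟩ := mapClusterPt_iff_ultrafilter.1 hμ
  refine ⟨μ, hinv, hat, contra_volume μ (hJ.trans ?_), fun m hm => ?_⟩
  · rw [min_self, one_mul]
  · have hm0 : (0 : ℝ) ≤ 1 / m := by positivity
    obtain ⟨ρ, hρ⟩ := exists_ulim (pc fun n => expm (1 / m) hm0 (ν n)) U
    have hinvs : ∀ n, Inv (pc (fun n => expm (1 / m) hm0 (ν n)) n) :=
      inv_pc _ fun n => inv_expm _ _ _ (hν n)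
    refine ⟨ρ, ⟨?_, ?_⟩, ?_⟩
    · refine tendsto_nhds_unique (((continuous_push 2).tendsto ρ).comp hρ)
        (hρ.congr fun n => ?_)
      exact (hinvs n).1.symm
    · refine tendsto_nhds_unique (((continuous_push 3).tendsto ρ).comp hρ)
        (hρ.congr fun n => ?_)
      exact (hinvs n).2.symm
    · apply ProbabilityMeasure.toMeasure_injective
      refine ext_fourier _ _ fun k => ?_
      change F k (cpow ρ m) = F k μ
      rw [F_cpow]
      have h1 : Tendsto (fun n => F k (pc (fun n => expm (1 / m) hm0 (ν n)) n) ^ m) U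
          (𝓝 (F k ρ ^ m)) := (((continuous_F k).pow m).tendsto ρ).comp hρ
      have h2 : Tendsto (fun n => F k (pc s n)) U (𝓝 (F k μ)) :=
        ((continuous_F k).tendsto μ).comp hμU
      refine tendsto_nhds_unique (h1.congr fun n => ?_) h2
      refine F_pc_pow k _ _ m (fun n => ?_) n
      rw [hsν n, F_expm, F_expm, ← Complex.exp_nat_mul]
      congr 1
      have hm1 : (m : ℂ) ≠ 0 := by
        have : m ≠ 0 := by omega
        exact_mod_cast this
      push_cast
      field_simp

lemma cv_atom_ge (σ ν : PM) (x y : UnitAddCircle) :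
    (σ : Measure UnitAddCircle) {x} * (ν : Measure UnitAddCircle) {y} ≤
      (cv σ ν : Measure UnitAddCircle) {x + y} := by
  rw [cv_atom]
  calc (σ : Measure UnitAddCircle) {x} * (ν : Measure UnitAddCircle) {y}
      = ∫⁻ t in {y}, (σ : Measure UnitAddCircle) {x + y - t} ∂(ν : Measure UnitAddCircle) := by
        simp [mul_comm]
    _ ≤ _ := setLIntegral_le_lintegral _ _

lemma root_atomless (ρ : PM) (m : ℕ) (h : ∀ x, (cpow ρ m : Measure UnitAddCircle) {x} = 0)
    (z : UnitAddCircle) : (ρ : Measure UnitAddCircle) {z} = 0 := by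
  by_contra hz
  have key : ∀ n : ℕ, (cpow ρ n : Measure UnitAddCircle) {n • z} ≠ 0 := by
    intro n
    induction n with
    | zero =>
      change (Measure.dirac 0 : Measure UnitAddCircle) {(0 : ℕ) • z} ≠ 0
      rw [zero_nsmul, Measure.dirac_apply' _ (measurableSet_singleton 0)]
      simp
    | succ n ih =>
      intro h0
      have h1 := cv_atom_ge (cpow ρ n) ρ (n • z) z
      have h2 : (cv (cpow ρ n) ρ : Measure UnitAddCircle) {n • z + z} = 0 := by
        rw [succ_nsmul] at h0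
        exact h0
      rw [h2] at h1
      exact mul_ne_zero ih hz (le_antisymm h1 zero_le)
  exact key m (h _)

theorem noGap_of_div (μ : PM) (hat : ∀ x, (μ : Measure UnitAddCircle) {x} = 0)
    (hne : (μ : Measure UnitAddCircle) ≠ volume) (hdiv : Divis μ) : NoGap := by
  by_contra hcon
  unfold NoGap at hcon
  push Not at hcon
  obtain ⟨c, hc, hgap⟩ := hcon
  obtain ⟨r, hr0, hr1, hr⟩ := exists_r c hc
  apply hne
  have main : ∀ k : ℕ, 1 ≤ k → F k μ = 0 := by
    intro k hk
    have hle : ∀ m : ℕ, ‖F k μ‖ ≤ r ^ (m + 1) := by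
      intro m
      obtain ⟨ρ, hρ, hpow⟩ := hdiv (m + 1) (by omega)
      have hρat : ∀ z, (ρ : Measure UnitAddCircle) {z} = 0 :=
        root_atomless ρ (m + 1) (by rw [hpow]; exact hat)
      have h0 : (push k ρ : Measure UnitAddCircle) {0} = 0 := by
        rw [coe_push, Measure.map_apply (continuous_nsmul k).measurable
          (measurableSet_singleton _)]
        have hns : NullSingletonClass (ρ : Measure UnitAddCircle) := ⟨hρat⟩
        exact (AddCircle.finite_torsion (1 : ℝ) hk).measure_zero _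
      have h1 := hr _ (hρ.push k) (hgap _ (hρ.push k) h0).le
      rw [F_push] at h1
      rw [← hpow, F_cpow, norm_pow]
      gcongr
    have h6 : ‖F k μ‖ ≤ 0 := ge_of_tendsto'
      ((tendsto_pow_atTop_nhds_zero_of_lt_one hr0 hr1).comp (tendsto_add_atTop_nat 1)) hle
    exact norm_le_zero_iff.1 h6
  refine eq_volume μ fun k hk => ?_
  rcases Int.natAbs_eq k with hk' | hk'
  · rw [hk']
    exact main _ (Int.natAbs_pos.2 hk)
  · rw [hk']
    exact F_neg _ _ (main _ (Int.natAbs_pos.2 hk))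

theorem dichotomy : [NoGap, NoGapAt, Dense CE, CE ∈ residual IM,
    ∃ μ : PM, Inv μ ∧ (∀ x, (μ : Measure UnitAddCircle) {x} = 0) ∧
      (μ : Measure UnitAddCircle) ≠ volume ∧ Divis μ].TFAE := by
  tfae_have 1 → 2 := noGapAt_of_noGap
  tfae_have 2 → 4 := ce_residual
  tfae_have 4 → 3 := fun h => dense_of_mem_residual h
  tfae_have 3 → 2 := fun h => noGapAt_of_dense CE (fun μ hμ => hμ.1) h
  tfae_have 2 → 5 := exists_div
  tfae_have 5 → 1 := fun ⟨μ, _, h1, h2, h3⟩ => noGap_of_div μ h1 h2 h3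
  tfae_finish

end Pool.Agent.H635F
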