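import Pool.Agent.H635F.Conv

set_option autoImplicit false

open MeasureTheory Filter Topology
open scoped ENNReal NNReal

namespace Pool.Agent.H635F

/-- Fourier coefficients of a probability measure on the circle. -/
noncomputable def F (k : ℤ) (μ : PM) : ℂ := ∫ x, fourier k x ∂(μ : Measure UnitAddCircle)

lemma continuous_F (k : ℤ) : Continuous (F k) := by
  rw [continuous_iff_continuousAt]
  intro μ
  have h := (ProbabilityMeasure.tendsto_iff_forall_integral_rclike_tendsto ℂ
    (F := 𝓝 μ) (μs := id) (μ := μ)).1 tendsto_id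
  exact h (BoundedContinuousFunction.mkOfCompact (fourier k))

lemma integrable_fourier (k : ℤ) (μ : Measure UnitAddCircle) [IsFiniteMeasure μ] :
    Integrable (fun x : UnitAddCircle => (fourier k x : ℂ)) μ :=
  (fourier k).continuous.integrable_of_hasCompactSupport (HasCompactSupport.of_compactSpace _)

lemma F_cv (k : ℤ) (μ ν : PM) : F k (cv μ ν) = F k μ * F k ν := by
  unfold F
  rw [coe_cv, Measure.conv, integral_map continuous_add.measurable.aemeasurable
    (fourier k).continuous.aestronglyMeasurable, ← integral_prod_mul]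
  refine integral_congr_ae (Eventually.of_forall fun p => ?_)
  simp [fourier_apply, smul_add, AddCircle.toCircle_add]

lemma norm_fourier (k : ℤ) (x : UnitAddCircle) : ‖(fourier k x : ℂ)‖ = 1 := by
  rw [fourier_apply]
  exact Circle.norm_coe _

lemma norm_F_le (k : ℤ) (μ : PM) : ‖F k μ‖ ≤ 1 := by
  unfold F
  have h := norm_integral_le_of_norm_le_const (μ := (μ : Measure UnitAddCircle))
    (f := fun x : UnitAddCircle => (fourier k x : ℂ)) (C := 1)
    (Eventually.of_forall fun x => (norm_fourier k x).le)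
  simpa using h

lemma F_push (m : ℕ) (μ : PM) : F 1 (push m μ) = F m μ := by
  unfold F
  rw [coe_push, integral_map (continuous_nsmul m).measurable.aemeasurable
    (fourier 1).continuous.aestronglyMeasurable]
  refine integral_congr_ae (Eventually.of_forall fun x => ?_)
  simp [fourier_apply]

lemma F_neg (k : ℤ) (μ : PM) (h : F k μ = 0) : F (-k) μ = 0 := by
  unfold F at h ⊢
  have h1 : ∫ x, (fourier (-k) x : ℂ) ∂(μ : Measure UnitAddCircle) =
      ∫ x, (starRingEnd ℂ) (fourier k x : ℂ) ∂(μ : Measure UnitAddCircle) := by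
    refine integral_congr_ae (Eventually.of_forall fun x => ?_)
    exact fourier_neg
  rw [h1, integral_conj, h, map_zero]

lemma F_volume (k : ℤ) (hk : k ≠ 0) :
    ∫ x, (fourier k x : ℂ) ∂(volume : Measure UnitAddCircle) = 0 := by
  have h1 := integral_add_right_eq_self (μ := (volume : Measure UnitAddCircle))
    (fun x : UnitAddCircle => (fourier k x : ℂ)) (((1 : ℝ) / 2 / k : ℝ) : UnitAddCircle)
  have h2 : ∫ x, (fourier k (x + (((1 : ℝ) / 2 / k : ℝ) : UnitAddCircle)) : ℂ)
      ∂(volume : Measure UnitAddCircle) =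
      ∫ x, -(fourier k x : ℂ) ∂(volume : Measure UnitAddCircle) := by
    refine integral_congr_ae (Eventually.of_forall fun x => ?_)
    exact fourier_add_half_inv_index hk one_pos x
  rw [h2, integral_neg] at h1
  exact neg_eq_self.1 h1

/-- Probability measures on the circle are determined by their Fourier coefficients. -/
lemma ext_fourier (α β : Measure UnitAddCircle) [IsProbabilityMeasure α] [IsProbabilityMeasure β]
    (h : ∀ k : ℤ, ∫ x, (fourier k x : ℂ) ∂α = ∫ x, (fourier k x : ℂ) ∂β) : α = β := by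
  have hint : ∀ (γ : Measure UnitAddCircle) [IsFiniteMeasure γ] (g : C(UnitAddCircle, ℂ)),
      Integrable (fun x => g x) γ := fun γ _ g =>
    g.continuous.integrable_of_hasCompactSupport (HasCompactSupport.of_compactSpace _)
  have hspan : ∀ g : C(UnitAddCircle, ℂ), g ∈ Submodule.span ℂ (Set.range (@fourier (1 : ℝ))) →
      ∫ x, g x ∂α = ∫ x, g x ∂β := by
    intro g hg
    induction hg using Submodule.span_induction with
    | mem g hg =>
      obtain ⟨k, rfl⟩ := hg
      exact h k
    | zero => simp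
    | add a b _ _ ha hb =>
      simp only [ContinuousMap.add_apply]
      rw [integral_add (hint _ a) (hint _ b), integral_add (hint _ a) (hint _ b), ha, hb]
    | smul r a _ ha =>
      simp only [ContinuousMap.smul_apply]
      rw [integral_smul, integral_smul, ha]
  have hall : ∀ g : C(UnitAddCircle, ℂ), ∫ x, g x ∂α = ∫ x, g x ∂β := by
    intro g
    have hg : g ∈ (Submodule.span ℂ (Set.range (@fourier (1 : ℝ)))).topologicalClosure := by
      rw [span_fourier_closure_eq_top]; trivial
    have hg2 : g ∈ closure (Submodule.span ℂ (Set.range (@fourier (1 : ℝ))) :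
      Set C(UnitAddCircle, ℂ)) := hg
    rw [Metric.mem_closure_iff] at hg2
    rw [← sub_eq_zero, ← norm_le_zero_iff]
    refine le_of_forall_pos_le_add fun ε hε => ?_
    obtain ⟨b, hb, hd⟩ := hg2 (ε / 2) (by positivity)
    have hb' := hspan b hb
    have key : ∀ (γ : Measure UnitAddCircle) [IsProbabilityMeasure γ],
        ‖∫ x, g x ∂γ - ∫ x, b x ∂γ‖ ≤ ε / 2 := by
      intro γ _
      rw [← integral_sub (hint γ g) (hint γ b)]
      have h1 := norm_integral_le_of_norm_le_const (μ := γ) (f := fun x => g x - b x) (C := ε / 2)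
        (Eventually.of_forall fun x => by
          have := ContinuousMap.dist_apply_le_dist (f := g) (g := b) x
          rw [dist_eq_norm] at this
          exact this.trans hd.le)
      simpa using h1
    have e : ∫ x, g x ∂α - ∫ x, g x ∂β =
        (∫ x, g x ∂α - ∫ x, b x ∂α) - (∫ x, g x ∂β - ∫ x, b x ∂β) := by
      rw [hb']; ring
    rw [e]
    have k1 := key α
    have k2 := key β
    have k3 := norm_sub_le (∫ x, g x ∂α - ∫ x, b x ∂α) (∫ x, g x ∂β - ∫ x, b x ∂β)
    linarith
  refine ext_of_forall_integral_eq_of_IsFiniteMeasure fun f => ?_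
  have h1 := hall ⟨fun x => ((f x : ℝ) : ℂ), Complex.continuous_ofReal.comp f.continuous⟩
  simp only [ContinuousMap.coe_mk] at h1
  rw [integral_complex_ofReal, integral_complex_ofReal] at h1
  exact_mod_cast h1

/-- A probability measure with vanishing Fourier coefficients is Lebesgue measure. -/
lemma eq_volume (μ : PM) (h : ∀ k : ℤ, k ≠ 0 → F k μ = 0) :
    (μ : Measure UnitAddCircle) = volume := by
  have hpv : IsProbabilityMeasure (volume : Measure UnitAddCircle) :=
    ⟨UnitAddCircle.measure_univ⟩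
  refine ext_fourier _ _ fun k => ?_
  by_cases hk : k = 0
  · subst hk
    simp
  · rw [F_volume k hk]
    exact h k hk

lemma fourier_sub_one_le (k : ℤ) (x : UnitAddCircle) :
    ‖(fourier k x : ℂ) - 1‖ ≤ 2 * Real.pi * |(k : ℝ)| * ‖x‖ := by
  induction x using QuotientAddGroup.induction_on with
  | H t =>
    have h1 : ((t : ℝ) : UnitAddCircle) = ((t - round t : ℝ) : UnitAddCircle) := by
      have h2 : ((round t : ℝ) : UnitAddCircle) = 0 := by
        rw [AddCircle.coe_eq_zero_iff]
        exact ⟨round t, by simp⟩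
      rw [AddCircle.coe_sub, h2, sub_zero]
    have h3 : ‖((t : ℝ) : UnitAddCircle)‖ = |t - round t| := UnitAddCircle.norm_eq
    change ‖(fourier k ((t : ℝ) : UnitAddCircle) : ℂ) - 1‖ ≤
      2 * Real.pi * |(k : ℝ)| * ‖((t : ℝ) : UnitAddCircle)‖
    rw [h3, h1, fourier_coe_apply]
    have h4 := Real.norm_exp_I_mul_ofReal_sub_one_le (x := 2 * Real.pi * k * (t - round t))
    have h5 : (2 * (Real.pi : ℂ) * Complex.I * (k : ℂ) * ((t - round t : ℝ) : ℂ) / ((1 : ℝ) : ℂ)) =
        Complex.I * ((2 * Real.pi * k * (t - round t) : ℝ) : ℂ) := by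
      push_cast
      ring
    rw [h5]
    refine h4.trans (le_of_eq ?_)
    rw [Real.norm_eq_abs, abs_mul, abs_mul, abs_mul, abs_of_pos Real.pi_pos]
    norm_num

lemma norm_F_lt (ν : PM) (h2 : push 2 ν = ν) (hJ : J ν ≠ 0) : ‖F 1 ν‖ < 1 := by
  have hmp : MeasurePreserving (fun x : UnitAddCircle => 2 • x) (ν : Measure UnitAddCircle) ν :=
    ⟨(continuous_nsmul 2).measurable, congrArg ProbabilityMeasure.toMeasure h2⟩
  rcases ae_eq_const_or_norm_integral_lt_of_norm_le_const
    (μ := (ν : Measure UnitAddCircle)) (f := fun x : UnitAddCircle => (fourier 1 x : ℂ)) (C := 1)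
    (Eventually.of_forall fun x => (norm_fourier 1 x).le) with h | h
  · exfalso
    apply hJ
    set a : ℂ := ⨍ x, (fourier 1 x : ℂ) ∂(ν : Measure UnitAddCircle)
    have h3 : ∀ᵐ x ∂(ν : Measure UnitAddCircle), (fourier 1 x : ℂ) = a := h
    have h4 : ∀ᵐ x ∂(ν : Measure UnitAddCircle), (fourier 1 (2 • x) : ℂ) = a :=
      hmp.quasiMeasurePreserving.ae h3
    have ha : a = 1 := by
      obtain ⟨x, hx1, hx2⟩ := (h3.and h4).exists
      have h5 : (fourier 1 (2 • x) : ℂ) = (fourier 1 x : ℂ) * (fourier 1 x : ℂ) := by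
        rw [two_nsmul]
        simp [fourier_apply, AddCircle.toCircle_add]
      rw [hx2, hx1] at h5
      have h6 : a ≠ 0 := by
        intro h0
        have := norm_fourier 1 x
        rw [hx1, h0, norm_zero] at this
        exact zero_ne_one this
      exact (mul_left_cancel₀ h6 (by rw [← h5, mul_one])).symm
    have h7 : ∀ᵐ x ∂(ν : Measure UnitAddCircle), (‖x‖₊ : ℝ≥0∞) = 0 := by
      filter_upwards [h3] with x hx
      rw [ha, fourier_apply, one_zsmul] at hx
      have h8 : AddCircle.toCircle x = AddCircle.toCircle (0 : UnitAddCircle) := by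
        rw [AddCircle.toCircle_zero]
        exact Circle.ext (by simpa using hx)
      have h9 := AddCircle.injective_toCircle (T := (1 : ℝ)) one_ne_zero h8
      rw [h9]; simp
    unfold J
    rw [lintegral_congr_ae h7]
    simp
  · unfold F
    simpa using h

lemma exists_r (c : ℝ≥0∞) (hc : c ≠ 0) : ∃ r : ℝ, 0 ≤ r ∧ r < 1 ∧ ∀ ν : PM, Inv ν → c ≤ J ν →
    ‖F 1 ν‖ ≤ r := by
  have hK : IsClosed {ν : PM | push 2 ν = ν ∧ c ≤ J ν} :=
    (isClosed_eq (continuous_push 2) continuous_id).inter
      (isClosed_le continuous_const continuous_J)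
  by_cases hne : {ν : PM | push 2 ν = ν ∧ c ≤ J ν}.Nonempty
  · obtain ⟨ν₀, h0, hmax⟩ := hK.isCompact.exists_isMaxOn hne (continuous_F 1).norm.continuousOn
    refine ⟨‖F 1 ν₀‖, norm_nonneg _, norm_F_lt ν₀ h0.1 ?_, fun ν hν hJ => hmax ⟨hν.1, hJ⟩⟩
    exact (lt_of_lt_of_le (pos_iff_ne_zero.2 hc) h0.2).ne'
  · refine ⟨0, le_rfl, one_pos, fun ν hν hJ => ?_⟩
    exact absurd ⟨ν, hν.1, hJ⟩ hne

end Pool.Agent.H635F
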