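import Pool.Agent.H635F.Class

set_option autoImplicit false

open MeasureTheory Filter Topology
open scoped ENNReal NNReal

namespace Pool.Agent.H635F

/-- If there are invariant measures without mass at zero arbitrarily close to the Dirac measure,
then there is an atomless invariant measure close to the Dirac measure. -/
theorem exists_atomless_gen (K : PM → Prop) (δ : ℝ≥0∞) (hδ : δ ≠ 0)
    (H : ∀ c : ℝ≥0∞, c ≠ 0 → ∃ ν : PM, K ν ∧ Inv ν ∧
      (∀ z, (ν : Measure UnitAddCircle) {z} ≤ 2⁻¹) ∧ J ν ≤ c) :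
    ∃ s : ℕ → PM, (∀ n, K (s n)) ∧ (∀ n, J (s n) ≤ min δ 1 * 2⁻¹ ^ (n + 5)) ∧ ∃ μ : PM,
      MapClusterPt μ atTop (pc s) ∧ Inv μ ∧
      (∀ x, (μ : Measure UnitAddCircle) {x} = 0) ∧ J μ ≤ min δ 1 * 2⁻¹ ^ 4 := by
  have hδ1 : min δ 1 ≠ 0 := by
    rw [← pos_iff_ne_zero, lt_min_iff]
    exact ⟨pos_iff_ne_zero.2 hδ, one_pos⟩
  have key : ∀ (σ : PM) (n : ℕ), ∃ ν : PM, K ν ∧ Inv ν ∧ J ν ≤ min δ 1 * 2⁻¹ ^ (n + 5) ∧
      En (cv σ ν) ≤ En σ * 2⁻¹ + 2⁻¹ ^ n := by
    intro σ n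
    have hp : ∀ m : ℕ, (2⁻¹ : ℝ≥0∞) ^ m ≠ 0 := fun m => pow_ne_zero _ (by simp)
    obtain ⟨c, hc, h⟩ := step σ (2⁻¹ ^ n) (hp n)
    obtain ⟨ν, hK, hν, h0, hJ⟩ := H (min c (min δ 1 * 2⁻¹ ^ (n + 5))) (by
      rw [← pos_iff_ne_zero, lt_min_iff]
      exact ⟨pos_iff_ne_zero.2 hc, pos_iff_ne_zero.2 (mul_ne_zero hδ1 (hp _))⟩)
    exact ⟨ν, hK, hν, hJ.trans (min_le_right _ _), h ν h0
      (hJ.trans (min_le_left _ _))⟩
  choose nx hnK hinv hJ hE using key
  let σ : ℕ → PM := fun n => Nat.rec d0 (fun n s => cv s (nx s n)) n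
  have hσ0 : σ 0 = d0 := rfl
  have hσs : ∀ n, σ (n + 1) = cv (σ n) (nx (σ n) n) := fun n => rfl
  have hσinv : ∀ n, Inv (σ n) := by
    intro n
    induction n with
    | zero => exact inv_d0
    | succ n ih => rw [hσs]; exact ih.cv (hinv _ _)
  have hσJ : ∀ n, J (σ n) + min δ 1 * 2⁻¹ ^ (n + 4) ≤ min δ 1 * 2⁻¹ ^ 4 := by
    intro n
    induction n with
    | zero => rw [hσ0, J_d0]; simp
    | succ n ih =>
      rw [hσs]
      have e : (2⁻¹ : ℝ≥0∞) ^ (n + 4) = 2⁻¹ ^ (n + 5) + 2⁻¹ ^ (n + 5) := by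
        rw [pow_succ _ (n + 4), ← mul_add, ENNReal.inv_two_add_inv_two, mul_one]
      calc J (cv (σ n) (nx (σ n) n)) + min δ 1 * 2⁻¹ ^ (n + 1 + 4)
          ≤ (J (σ n) + min δ 1 * 2⁻¹ ^ (n + 5)) + min δ 1 * 2⁻¹ ^ (n + 5) := by
            have e2 : n + 1 + 4 = n + 5 := by ring
            rw [e2]
            gcongr
            exact (J_cv_le _ _).trans (by gcongr; exact hJ _ _)
        _ = J (σ n) + min δ 1 * 2⁻¹ ^ (n + 4) := by rw [e, add_assoc, mul_add]
        _ ≤ _ := ih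
  have hσE : ∀ n, En (σ n) ≤ (2 * (n : ℝ≥0∞) + 1) * 2⁻¹ ^ n := by
    intro n
    induction n with
    | zero =>
      simp only [CharP.cast_eq_zero, mul_zero, zero_add, pow_zero, mul_one]
      exact En_le_one _
    | succ n ih =>
      rw [hσs]
      refine (hE _ _).trans ?_
      calc En (σ n) * 2⁻¹ + 2⁻¹ ^ n ≤ ((2 * (n : ℝ≥0∞) + 1) * 2⁻¹ ^ n) * 2⁻¹ + 2⁻¹ ^ n := by
            gcongr
        _ = (2 * (n : ℝ≥0∞) + 1) * 2⁻¹ ^ (n + 1) + (2⁻¹ ^ (n + 1) + 2⁻¹ ^ (n + 1)) := by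
            congr 1
            · rw [pow_succ]; ring
            · rw [pow_succ, ← mul_add, ENNReal.inv_two_add_inv_two, mul_one]
        _ = _ := by push_cast; ring
  have hlim : Tendsto (fun n : ℕ => (2 * (n : ℝ≥0∞) + 1) * 2⁻¹ ^ n) atTop (𝓝 0) := by
    have h1 : Tendsto (fun n : ℕ => ENNReal.ofReal ((2 * (n : ℝ) + 1) * (2⁻¹ : ℝ) ^ n)) atTop
        (𝓝 (ENNReal.ofReal 0)) := by
      refine (ENNReal.continuous_ofReal.tendsto 0).comp ?_
      have h2 := tendsto_self_mul_const_pow_of_abs_lt_one (r := (2⁻¹ : ℝ)) (by norm_num)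
      have h3 := tendsto_pow_atTop_nhds_zero_of_lt_one (r := (2⁻¹ : ℝ)) (by norm_num) (by norm_num)
      have h4 := (h2.const_mul 2).add h3
      simp only [mul_zero, add_zero] at h4
      refine h4.congr fun n => ?_
      ring
    rw [ENNReal.ofReal_zero] at h1
    refine h1.congr fun n => ?_
    rw [ENNReal.ofReal_mul (by positivity), ENNReal.ofReal_pow (by norm_num),
      ENNReal.ofReal_inv_of_pos (by norm_num), ENNReal.ofReal_add (by positivity) (by norm_num),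
      ENNReal.ofReal_mul (by norm_num)]
    simp
  let U : Ultrafilter ℕ := hyperfilter ℕ
  have hU : (U : Filter ℕ) ≤ atTop := Nat.hyperfilter_le_atTop
  obtain ⟨μ, hμ⟩ := exists_ulim σ U
  have hpc : pc (fun n => nx (σ n) n) = σ := by
    funext n
    induction n with
    | zero => rfl
    | succ n ih =>
      change cv (pc (fun n => nx (σ n) n) n) (nx (σ n) n) = σ (n + 1)
      rw [ih, hσs]
  refine ⟨fun n => nx (σ n) n, fun n => hnK _ _, fun n => hJ _ _, μ, ?_, ⟨?_, ?_⟩, ?_, ?_⟩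
  · rw [hpc]
    exact mapClusterPt_iff_ultrafilter.2 ⟨U, hU, hμ⟩
  · refine tendsto_nhds_unique (((continuous_push 2).tendsto μ).comp hμ) (hμ.congr fun n => ?_)
    exact (hσinv n).1.symm
  · refine tendsto_nhds_unique (((continuous_push 3).tendsto μ).comp hμ) (hμ.congr fun n => ?_)
    exact (hσinv n).2.symm
  · intro x
    let τ : ℕ → ℕ → PM := fun N k => Nat.rec d0 (fun k s => cv s (nx (σ (N + k)) (N + k))) k
    have hτ0 : ∀ N, τ N 0 = d0 := fun N => rfl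
    have hτs : ∀ N k, τ N (k + 1) = cv (τ N k) (nx (σ (N + k)) (N + k)) := fun N k => rfl
    have hστ : ∀ N k, σ (N + k) = cv (σ N) (τ N k) := by
      intro N k
      induction k with
      | zero => rw [hτ0, cv_d0]; rfl
      | succ k ih =>
        rw [hτs, ← cv_assoc, ← ih]
        exact hσs (N + k)
    have hcv : ∀ N, ∃ τ' : PM, μ = cv (σ N) τ' := by
      intro N
      obtain ⟨τ', hτ'⟩ := exists_ulim (fun k => τ N (k - N)) U
      refine ⟨τ', ?_⟩
      have h1 : Tendsto (fun k => cv (σ N) (τ N (k - N))) U (𝓝 (cv (σ N) τ')) :=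
        (continuous_cv.tendsto (σ N, τ')).comp (tendsto_const_nhds.prodMk_nhds hτ')
      refine tendsto_nhds_unique hμ (h1.congr' ?_)
      have h2 : ∀ᶠ k in atTop, N ≤ k := eventually_ge_atTop N
      filter_upwards [hU h2] with k hk
      rw [← hστ, Nat.add_sub_cancel' hk]
    by_contra hx
    have hx2 : ((μ : Measure UnitAddCircle) {x} * 2⁻¹) ^ 2 ≠ 0 :=
      pow_ne_zero _ (mul_ne_zero hx (by simp))
    obtain ⟨N, hN⟩ := (hlim.eventually (Iio_mem_nhds (pos_iff_ne_zero.2 hx2))).exists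
    obtain ⟨τ', hτ'⟩ := hcv N
    have h1 : ∀ y : UnitAddCircle, (ProbabilityMeasure.toMeasure (σ N)) {y} ≤
        (μ : Measure UnitAddCircle) {x} * 2⁻¹ := by
      intro y
      have h2 := (sq_atom_le (σ N) y).trans ((hσE N).trans (Set.mem_Iio.1 hN).le)
      exact (ENNReal.pow_le_pow_left_iff (by norm_num)).1 h2
    have h3 := cv_atom_le (σ N) τ' _ h1 x
    rw [← hτ'] at h3
    have h4 := ENNReal.half_lt_self hx (measure_ne_top _ _)
    rw [ENNReal.div_eq_inv_mul, mul_comm] at h4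
    exact absurd h3 (not_le.2 h4)
  · refine le_of_tendsto ((continuous_J.tendsto μ).comp hμ) (Eventually.of_forall fun n => ?_)
    exact le_self_add.trans (hσJ n)

end Pool.Agent.H635F
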