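import Pool.Agent.H635F.Equi2

set_option autoImplicit false

open MeasureTheory Filter Topology
open scoped ENNReal NNReal

namespace Pool.Agent.H635F

/-- The sum of the Dirac masses along the orbit of `x`. -/
noncomputable def orbSum (x : UnitAddCircle) (N M : ℕ) : Measure UnitAddCircle :=
  ∑ i ∈ Finset.range N, ∑ j ∈ Finset.range M, Measure.dirac ((2 ^ i * 3 ^ j) • x)

lemma orbSum_univ (x : UnitAddCircle) (N M : ℕ) : orbSum x N M Set.univ = (N : ℝ≥0∞) * M := by
  unfold orbSum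
  simp

lemma map_sum_dirac (m : ℕ) (x : UnitAddCircle) (N M : ℕ) :
    Measure.map (fun y : UnitAddCircle => m • y) (orbSum x N M) =
      ∑ i ∈ Finset.range N, ∑ j ∈ Finset.range M,
        Measure.dirac (m • ((2 ^ i * 3 ^ j) • x)) := by
  unfold orbSum
  have hm : Measurable fun y : UnitAddCircle => m • y := (continuous_nsmul m).measurable
  rw [← Measure.mapₗ_apply_of_measurable hm, map_sum]
  refine Finset.sum_congr rfl fun i _ => ?_
  rw [map_sum]
  refine Finset.sum_congr rfl fun j _ => ?_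
  rw [Measure.mapₗ_apply_of_measurable hm, Measure.map_dirac' hm]

lemma sum_shift {A : Type*} [AddCommMonoid A] (D : ℕ → A) (N : ℕ) (hN : 1 ≤ N) (h : D N = D 0) :
    ∑ i ∈ Finset.range N, D (i + 1) = ∑ i ∈ Finset.range N, D i := by
  obtain ⟨K, rfl⟩ : ∃ K, N = K + 1 := ⟨N - 1, by omega⟩
  rw [Finset.sum_range_succ (fun i => D (i + 1)) K, Finset.sum_range_succ' D K, h]

lemma orbSum_inv2 (x : UnitAddCircle) (N M : ℕ) (hN : 1 ≤ N) (h : (2 ^ N) • x = x) :
    Measure.map (fun y : UnitAddCircle => 2 • y) (orbSum x N M) = orbSum x N M := by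
  rw [map_sum_dirac]
  unfold orbSum
  rw [← sum_shift (fun i => ∑ j ∈ Finset.range M, Measure.dirac ((2 ^ i * 3 ^ j) • x)) N hN]
  · refine Finset.sum_congr rfl fun i _ => Finset.sum_congr rfl fun j _ => ?_
    congr 1
    rw [← mul_nsmul', pow_succ']
    ring_nf
  · refine Finset.sum_congr rfl fun j _ => ?_
    congr 1
    rw [mul_comm, mul_nsmul', h, pow_zero, one_mul]

lemma orbSum_inv3 (x : UnitAddCircle) (N M : ℕ) (hM : 1 ≤ M) (h : (3 ^ M) • x = x) :
    Measure.map (fun y : UnitAddCircle => 3 • y) (orbSum x N M) = orbSum x N M := by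
  rw [map_sum_dirac]
  unfold orbSum
  refine Finset.sum_congr rfl fun i _ => ?_
  rw [← sum_shift (fun j => Measure.dirac ((2 ^ i * 3 ^ j) • x)) M hM]
  · refine Finset.sum_congr rfl fun j _ => ?_
    congr 1
    rw [← mul_nsmul', pow_succ']
    ring_nf
  · congr 1
    rw [mul_nsmul', h, pow_zero, mul_one]

/-- The invariant probability measure carried by a finite orbit. -/
noncomputable def orb (x : UnitAddCircle) (N M : ℕ) (hN : 1 ≤ N) (hM : 1 ≤ M) : PM :=
  ⟨((N : ℝ≥0∞) * M)⁻¹ • orbSum x N M, ⟨by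
    have h1 : (N : ℝ≥0∞) * M ≠ 0 := by
      apply mul_ne_zero <;> simp <;> omega
    have h2 : (N : ℝ≥0∞) * M ≠ ⊤ := ENNReal.mul_ne_top (by simp) (by simp)
    rw [Measure.smul_apply, orbSum_univ, smul_eq_mul, ENNReal.inv_mul_cancel h1 h2]⟩⟩

lemma orb_inv (x : UnitAddCircle) (N M : ℕ) (hN : 1 ≤ N) (hM : 1 ≤ M)
    (h2 : (2 ^ N) • x = x) (h3 : (3 ^ M) • x = x) : Inv (orb x N M hN hM) := by
  constructor
  · apply ProbabilityMeasure.toMeasure_injective
    rw [coe_push]
    change Measure.map _ (((N : ℝ≥0∞) * M)⁻¹ • orbSum x N M) = ((N : ℝ≥0∞) * M)⁻¹ • orbSum x N M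
    rw [Measure.map_smul, orbSum_inv2 x N M hN h2]
  · apply ProbabilityMeasure.toMeasure_injective
    rw [coe_push]
    change Measure.map _ (((N : ℝ≥0∞) * M)⁻¹ • orbSum x N M) = ((N : ℝ≥0∞) * M)⁻¹ • orbSum x N M
    rw [Measure.map_smul, orbSum_inv3 x N M hM h3]

lemma orb_integral (x : UnitAddCircle) (N M : ℕ) (hN : 1 ≤ N) (hM : 1 ≤ M)
    (f : UnitAddCircle → ℝ) (hf : Continuous f) :
    ∫ y, f y ∂(orb x N M hN hM : Measure UnitAddCircle) =
      ((N : ℝ) * M)⁻¹ * ∑ i ∈ Finset.range N, ∑ j ∈ Finset.range M, f ((2 ^ i * 3 ^ j) • x) := by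
  change ∫ y, f y ∂(((N : ℝ≥0∞) * M)⁻¹ • orbSum x N M) = _
  rw [integral_smul_measure]
  congr 1
  · simp
  · unfold orbSum
    have hi : ∀ y : UnitAddCircle, Integrable f (Measure.dirac y) := fun y =>
      hf.integrable_of_hasCompactSupport (HasCompactSupport.of_compactSpace _)
    rw [integral_finsetSum_measure]
    · refine Finset.sum_congr rfl fun i _ => ?_
      rw [integral_finsetSum_measure]
      · refine Finset.sum_congr rfl fun j _ => ?_
        rw [integral_dirac]
      · exact fun j _ => hi _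
    · intro i _
      rw [integrable_finsetSum_measure]
      exact fun j _ => hi _

lemma orb_null (x : UnitAddCircle) (N M : ℕ) (hN : 1 ≤ N) (hM : 1 ≤ M) (s : Set UnitAddCircle)
    (hs : MeasurableSet s) (h : ∀ i j : ℕ, (2 ^ i * 3 ^ j) • x ∉ s) :
    (orb x N M hN hM : Measure UnitAddCircle) s = 0 := by
  change (((N : ℝ≥0∞) * M)⁻¹ • orbSum x N M) s = 0
  rw [Measure.smul_apply]
  unfold orbSum
  simp only [Measure.finsetSum_apply, smul_eq_mul, mul_eq_zero]
  right
  refine Finset.sum_eq_zero fun i _ => Finset.sum_eq_zero fun j _ => ?_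
  rw [Measure.dirac_apply' _ hs]
  simp [h i j]

end Pool.Agent.H635F
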