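import Pool.Agent.H635F.Fin

set_option autoImplicit false

open MeasureTheory Filter Topology
open scoped ENNReal NNReal

namespace Pool.Agent.H635F

/-- Finitely supported invariant probability measures. -/
def FS : Set PM := {ν | Invt (ν : Measure UnitAddCircle) ∧
  ∃ S : Set UnitAddCircle, S.Finite ∧ (ν : Measure UnitAddCircle) Sᶜ = 0}

lemma fs_cv (ν κ : PM) (hν : ν ∈ FS) (hκ : κ ∈ FS) : cv ν κ ∈ FS := by
  obtain ⟨h1, S, hS, hS0⟩ := hν
  obtain ⟨h2, T, hT, hT0⟩ := hκ
  refine ⟨(invt_iff _).2 (((invt_iff _).1 h1).cv ((invt_iff _).1 h2)), Set.image2 (· + ·) S T,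
    hS.image2 _ hT, ?_⟩
  have hfin : (Set.image2 (· + ·) S T).Finite := hS.image2 _ hT
  rw [coe_cv, Measure.conv, Measure.map_apply continuous_add.measurable
    hfin.measurableSet.compl]
  refine measure_mono_null (t := (Sᶜ ×ˢ Set.univ) ∪ (Set.univ ×ˢ Tᶜ)) ?_
    (measure_union_null ?_ ?_)
  · rintro ⟨x, y⟩ hxy
    by_cases hx : x ∈ S
    · by_cases hy : y ∈ T
      · exact absurd ⟨x, hx, y, hy, rfl⟩ hxy
      · exact Or.inr ⟨trivial, hy⟩
    · exact Or.inl ⟨hx, trivial⟩
  · rw [Measure.prod_prod, hS0, zero_mul]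
  · rw [Measure.prod_prod, hT0, mul_zero]

lemma fs_d0 : d0 ∈ FS := by
  refine ⟨(invt_iff _).2 inv_d0, {0}, Set.finite_singleton 0, ?_⟩
  change (Measure.dirac 0 : Measure UnitAddCircle) {0}ᶜ = 0
  rw [Measure.dirac_apply' _ (measurableSet_singleton 0).compl]
  simp

lemma fs_orb (ν : PM) (h : IsOrb ν) : ν ∈ FS := by
  obtain ⟨x, N, M, hN, hM, h2, h3, rfl⟩ := h
  refine ⟨(invt_iff _).2 (orb_inv x N M hN hM h2 h3), {y | (2 ^ N - 1) • y = 0}, ?_, ?_⟩
  · refine AddCircle.finite_torsion (1 : ℝ) ?_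
    have : 2 ≤ 2 ^ N := by
      calc 2 = 2 ^ 1 := rfl
        _ ≤ 2 ^ N := Nat.pow_le_pow_right (by norm_num) hN
    omega
  · have hx : (2 ^ N - 1) • x = 0 := by
      have h5 : (2 ^ N) • x = (2 ^ N - 1) • x + x := by
        conv_lhs => rw [← Nat.sub_add_cancel (Nat.one_le_two_pow (n := N))]
        rw [add_nsmul, one_nsmul]
      rw [h2] at h5
      exact right_eq_add.1 h5
    have hcl : IsClosed {y : UnitAddCircle | (2 ^ N - 1) • y = 0} :=
      isClosed_eq (continuous_nsmul _) continuous_const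
    refine orb_null x N M hN hM _ hcl.measurableSet.compl fun i j hij => hij ?_
    change (2 ^ N - 1) • ((2 ^ i * 3 ^ j) • x) = 0
    rw [smul_comm, hx, smul_zero]

lemma fs_pc (s : ℕ → PM) (h : ∀ n, IsOrb (s n)) (n : ℕ) : pc s n ∈ FS := by
  induction n with
  | zero => exact fs_d0
  | succ n ih => exact fs_cv _ _ ih (fs_orb _ (h n))

lemma cl_cv (ν κ : PM) (hν : ν ∈ closure FS) (hκ : κ ∈ closure FS) : cv ν κ ∈ closure FS :=
  map_mem_closure₂ continuous_cv hν hκ fun a ha b hb => fs_cv a b ha hb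

/-- The closure of the finitely supported invariant measures. -/
abbrev CM := {μ : PM // μ ∈ closure FS}

instance : CompactSpace CM := isCompact_iff_compactSpace.1 isClosed_closure.isCompact

/-- Atomless approximable measures other than Lebesgue measure. -/
def CE2 : Set CM := {μ : CM | (∀ x, (μ.1 : Measure UnitAddCircle) {x} = 0) ∧
  (μ.1 : Measure UnitAddCircle) ≠ volume}

/-- Nonzero periodic orbits accumulate at zero. -/
def NoGapOrb : Prop := ∀ ε : ℝ, 0 < ε → ∃ (x : UnitAddCircle) (N M : ℕ), 1 ≤ N ∧ 1 ≤ M ∧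
  (2 ^ N) • x = x ∧ (3 ^ M) • x = x ∧ x ≠ 0 ∧
    ((N : ℝ) * M)⁻¹ * ∑ i ∈ Finset.range N, ∑ j ∈ Finset.range M, ‖(2 ^ i * 3 ^ j) • x‖ ≤ ε

lemma orbs_small (H : NoGapOrb) (c : ℝ≥0∞) (hc : c ≠ 0) : ∃ ν : PM, IsOrb ν ∧ Inv ν ∧
    (∀ z, (ν : Measure UnitAddCircle) {z} ≤ 2⁻¹) ∧ J ν ≤ c := by
  have hc' : 0 < (min c 1).toReal := ENNReal.toReal_pos
    (by rw [← pos_iff_ne_zero, lt_min_iff]; exact ⟨pos_iff_ne_zero.2 hc, one_pos⟩)
    (ne_top_of_le_ne_top ENNReal.one_ne_top (min_le_right _ _))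
  obtain ⟨x, N, M, hN, hM, h2, h3, hx, hlt⟩ := H _ hc'
  have hinv := orb_inv x N M hN hM h2 h3
  refine ⟨orb x N M hN hM, ⟨x, N, M, hN, hM, h2, h3, rfl⟩, hinv,
    atom_le_half _ hinv.1 ?_, ?_⟩
  · refine orb_null x N M hN hM {0} (measurableSet_singleton 0) fun i j => ?_
    exact orbit_ne_zero x N M hN hM h2 h3 hx i j
  · have h4 := integral_norm_eq (orb x N M hN hM)
    rw [orb_integral x N M hN hM (fun y => ‖y‖) continuous_norm] at h4
    have h5 : (J (orb x N M hN hM)).toReal ≤ (min c 1).toReal := by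
      rw [← h4]; exact hlt
    exact ((ENNReal.toReal_le_toReal (J_ne_top _) (ne_top_of_le_ne_top ENNReal.one_ne_top
      (min_le_right _ _))).1 h5).trans (min_le_left _ _)

lemma cl_small (H : NoGapOrb) (c : ℝ≥0∞) (hc : c ≠ 0) : ∃ κ : PM, κ ∈ closure FS ∧
    (∀ x, (κ : Measure UnitAddCircle) {x} = 0) ∧ J κ ≤ c := by
  obtain ⟨s, hs, -, μ, hμ, -, hat, hJ⟩ := exists_atomless_gen IsOrb c hc (orbs_small H)
  obtain ⟨U, hU, hμU⟩ := mapClusterPt_iff_ultrafilter.1 hμ
  refine ⟨μ, mem_closure_of_tendsto hμU (Eventually.of_forall fun n => fs_pc s hs n), hat,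
    hJ.trans ?_⟩
  calc min c 1 * 2⁻¹ ^ 4 ≤ c * 1 := by
        gcongr
        · exact min_le_left _ _
        · exact pow_le_one₀ zero_le (by simp)
    _ = c := mul_one c

theorem dense2 (H : NoGapOrb) : Dense {μ : CM | ∀ x, (μ.1 : Measure UnitAddCircle) {x} = 0} := by
  intro ν
  have hc : ∀ n : ℕ, ∃ κ : PM, κ ∈ closure FS ∧ (∀ x, (κ : Measure UnitAddCircle) {x} = 0) ∧
      J κ ≤ ((n : ℝ≥0∞) + 1)⁻¹ := fun n => cl_small H _ (by simp)
  choose κ hκ1 hκ2 hκ3 using hc
  have hJ0 : Tendsto (fun n => J (κ n)) atTop (𝓝 0) := by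
    have h1 : Tendsto (fun n : ℕ => ((n : ℝ≥0∞) + 1)⁻¹) atTop (𝓝 0) := by
      have h2 := ENNReal.tendsto_inv_nat_nhds_zero.comp (tendsto_add_atTop_nat 1)
      refine h2.congr fun n => ?_
      simp
    exact tendsto_of_tendsto_of_tendsto_of_le_of_le tendsto_const_nhds h1 (fun n => zero_le) hκ3
  have hlim : Tendsto (fun n => cv ν.1 (κ n)) atTop (𝓝 ν.1) := by
    have h1 : Tendsto (fun n => cv ν.1 (κ n)) atTop (𝓝 (cv ν.1 d0)) :=
      (continuous_cv.tendsto (ν.1, d0)).comp (tendsto_const_nhds.prodMk_nhds (tendsto_d0 κ hJ0))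
    rwa [cv_d0] at h1
  have hlim2 : Tendsto (fun n => (⟨cv ν.1 (κ n), cl_cv _ _ ν.2 (hκ1 n)⟩ : CM)) atTop (𝓝 ν) :=
    tendsto_subtype_rng.2 hlim
  refine mem_closure_of_tendsto hlim2 (Eventually.of_forall fun n => ?_)
  exact cv_atomless _ _ (hκ2 n)

lemma fs_ne_vol (ν : PM) (h : ν ∈ FS) : (ν : Measure UnitAddCircle) ≠ volume := by
  intro he
  obtain ⟨-, S, hS, hS0⟩ := h
  rw [he] at hS0
  have hpt : ∀ x : UnitAddCircle, (volume : Measure UnitAddCircle) {x} = 0 := by
    intro x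
    have h2 := AddCircle.volume_closedBall (T := (1 : ℝ)) (x := x) 0
    rw [Metric.closedBall_zero] at h2
    rw [h2]
    simp
  have hcl : NullSingletonClass (volume : Measure UnitAddCircle) := ⟨hpt⟩
  have hns : (volume : Measure UnitAddCircle) S = 0 := hS.measure_zero _
  have h1 : (volume : Measure UnitAddCircle) Set.univ = 0 := by
    refine measure_mono_null (t := S ∪ Sᶜ) (by simp) (measure_union_null hns hS0)
  rw [UnitAddCircle.measure_univ] at h1
  exact one_ne_zero h1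

lemma ne_vol_residual2 : {μ : CM | (μ.1 : Measure UnitAddCircle) ≠ volume} ∈ residual CM := by
  have hop : IsOpen {μ : CM | (μ.1 : Measure UnitAddCircle) ≠ volume} := by
    have e : {μ : CM | (μ.1 : Measure UnitAddCircle) ≠ volume} = Subtype.val ⁻¹' {vol}ᶜ := by
      ext μ
      simp only [Set.mem_ofPred_eq, Set.mem_preimage, Set.mem_compl_iff, Set.mem_singleton_iff]
      refine not_congr ⟨fun h => ?_, fun h => ?_⟩
      · exact ProbabilityMeasure.toMeasure_injective h
      · rw [h]; rfl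
    rw [e]
    exact isClosed_singleton.isOpen_compl.preimage continuous_subtype_val
  refine residual_of_dense_open hop ?_
  intro ν
  rw [closure_subtype]
  refine closure_mono ?_ ν.2
  intro κ hκ
  exact ⟨⟨κ, subset_closure hκ⟩, fs_ne_vol κ hκ, rfl⟩

theorem ce2_residual (H : NoGapOrb) : CE2 ∈ residual CM :=
  Filter.inter_mem
    (residual_of_dense_Gδ (isGδ_atomless.preimage continuous_subtype_val) (dense2 H))
    ne_vol_residual2

/-- Points of positive mass of a finitely supported invariant measure are periodic with common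
periods. -/
lemma periodic_of_fs (a : ℕ) (ν : PM) (ha : push a ν = ν)
    (hfs : ∃ S : Set UnitAddCircle, S.Finite ∧ (ν : Measure UnitAddCircle) Sᶜ = 0) :
    ∃ N : ℕ, 1 ≤ N ∧ ∀ x, (ν : Measure UnitAddCircle) {x} ≠ 0 → (a ^ N) • x = x := by
  obtain ⟨S, hS, hS0⟩ := hfs
  let P : Set UnitAddCircle := {x | (ν : Measure UnitAddCircle) {x} ≠ 0}
  have hPS : P ⊆ S := by
    intro x hx
    by_contra hxS
    exact hx (measure_mono_null (Set.singleton_subset_iff.2 hxS) hS0)
  have hPfin : P.Finite := hS.subset hPS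
  have hmap : ∀ x ∈ P, a • x ∈ P := by
    intro x hx h0
    apply hx
    have h1 : (ν : Measure UnitAddCircle) ((fun y : UnitAddCircle => a • y) ⁻¹' {a • x}) = 0 := by
      rw [← Measure.map_apply (continuous_nsmul a).measurable (measurableSet_singleton _),
        ← coe_push, ha]
      exact h0
    exact measure_mono_null (by simp) h1
  let f : P → P := fun x => ⟨a • x.1, hmap x.1 x.2⟩
  have hfin : Finite P := hPfin.to_subtype
  have hsurj : Function.Surjective f := by
    rintro ⟨z, hz⟩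
    by_contra hcon
    push Not at hcon
    apply hz
    have h1 : (ν : Measure UnitAddCircle) ((fun y : UnitAddCircle => a • y) ⁻¹' {z}) = 0 := by
      have h2 : (fun y : UnitAddCircle => a • y) ⁻¹' {z} ⊆ Sᶜ ∪ (S \ P) := by
        intro y hy
        by_cases hyS : y ∈ S
        · refine Or.inr ⟨hyS, fun hyP => ?_⟩
          exact hcon ⟨y, hyP⟩ (Subtype.ext hy)
        · exact Or.inl hyS
      refine measure_mono_null h2 (measure_union_null hS0 ?_)
      have hc : (S \ P).Countable := (hS.subset Set.sdiff_subset).countable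
      rw [← Set.biUnion_of_singleton (S \ P)]
      rw [measure_biUnion_null_iff hc]
      intro y hy
      by_contra h0
      exact hy.2 h0
    rw [← Measure.map_apply (continuous_nsmul a).measurable (measurableSet_singleton _),
      ← coe_push, ha] at h1
    exact h1
  have hbij : Function.Bijective f := ⟨Finite.injective_iff_surjective.2 hsurj, hsurj⟩
  let e : Equiv.Perm P := Equiv.ofBijective f hbij
  refine ⟨orderOf e, orderOf_pos e, fun x hx => ?_⟩
  have h1 : ∀ n : ℕ, ((e ^ n) ⟨x, hx⟩ : P).1 = (a ^ n) • x := by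
    intro n
    induction n with
    | zero => simp
    | succ n ih =>
      rw [pow_succ', Equiv.Perm.mul_apply]
      change a • ((e ^ n) ⟨x, hx⟩ : P).1 = _
      rw [ih, ← mul_nsmul', ← pow_succ']
  have h2 := h1 (orderOf e)
  rw [pow_orderOf_eq_one] at h2
  exact h2.symm

end Pool.Agent.H635F
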