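import Pool.Agent.H635F.Per

set_option autoImplicit false

open MeasureTheory Filter Topology
open scoped ENNReal NNReal

namespace Pool.Agent.H635F

lemma push_mul (a b : ℕ) (ν : PM) : push (a * b) ν = push a (push b ν) := by
  apply ProbabilityMeasure.toMeasure_injective
  simp only [coe_push]
  rw [Measure.map_map (continuous_nsmul a).measurable (continuous_nsmul b).measurable]
  congr 1
  funext x
  simp only [Function.comp]
  rw [mul_nsmul']

lemma push_pow (a : ℕ) (ν : PM) (h : push a ν = ν) (i : ℕ) : push (a ^ i) ν = ν := by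
  induction i with
  | zero =>
    apply ProbabilityMeasure.toMeasure_injective
    rw [coe_push]
    simp
  | succ i ih => rw [pow_succ, push_mul, h, ih]

lemma push_inv (ν : PM) (h : Inv ν) (i j : ℕ) : push (2 ^ i * 3 ^ j) ν = ν := by
  rw [push_mul, push_pow 3 ν h.2 j, push_pow 2 ν h.1 i]

theorem noGapOrb_of_dense (S : Set CM)
    (hS : ∀ μ ∈ S, ∀ x, (μ.1 : Measure UnitAddCircle) {x} = 0) (hd : Dense S) : NoGapOrb := by
  intro ε hε
  have hcl : IsClosed ({0} : Set UnitAddCircle) := isClosed_singleton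
  have hopen : IsOpen {μ : CM | J μ.1 < ENNReal.ofReal (ε / 2)} :=
    isOpen_lt (continuous_J.comp continuous_subtype_val) continuous_const
  obtain ⟨κ, hκJ, hκS⟩ := hd.inter_open_nonempty _ hopen ⟨⟨d0, subset_closure fs_d0⟩, by
    change J d0 < _
    rw [J_d0]
    simpa using hε⟩
  have hκ0 := hS κ hκS 0
  have hlim := HasOuterApproxClosed.tendsto_lintegral_apprSeq hcl
    (κ.1 : Measure UnitAddCircle)
  rw [hκ0] at hlim
  obtain ⟨n, hn⟩ := (hlim.eventually (Iio_mem_nhds (show (0 : ℝ≥0∞) < 2⁻¹ by simp))).exists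
  have hV : IsOpen ({ν : PM | J ν < ENNReal.ofReal (ε / 2)} ∩
      {ν : PM | ∫⁻ x, (hcl.apprSeq n x : ℝ≥0∞) ∂(ν : Measure UnitAddCircle) < 2⁻¹}) :=
    (isOpen_lt continuous_J continuous_const).inter
      (isOpen_lt (ProbabilityMeasure.continuous_lintegral_boundedContinuousFunction
        (hcl.apprSeq n)) continuous_const)
  obtain ⟨ν, ⟨hνJ, hνn⟩, hνFS⟩ := mem_closure_iff.1 κ.2 _ hV ⟨hκJ, hn⟩
  obtain ⟨hνinv', hνfin⟩ := hνFS
  have hνinv := (invt_iff _).1 hνinv'
  have hν0 : (ν : Measure UnitAddCircle) {0} < 2⁻¹ :=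
    lt_of_le_of_lt (HasOuterApproxClosed.measure_le_lintegral hcl _ n) hνn
  obtain ⟨N, hN, hN2⟩ := periodic_of_fs 2 ν hνinv.1 hνfin
  obtain ⟨M, hM, hM3⟩ := periodic_of_fs 3 ν hνinv.2 hνfin
  by_contra hcon
  push Not at hcon
  let g : UnitAddCircle → ℝ := fun x =>
    ((N : ℝ) * M)⁻¹ * ∑ i ∈ Finset.range N, ∑ j ∈ Finset.range M, ‖(2 ^ i * 3 ^ j) • x‖
  have hgc : ∀ i j : ℕ, Continuous fun x : UnitAddCircle => ‖(2 ^ i * 3 ^ j) • x‖ := fun i j =>
    (continuous_nsmul _).norm
  have hint : ∀ f : UnitAddCircle → ℝ, Continuous f → Integrable f (ν : Measure UnitAddCircle) :=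
    fun f hf => hf.integrable_of_hasCompactSupport (HasCompactSupport.of_compactSpace _)
  have hgcont : Continuous g := by
    refine continuous_const.mul (continuous_finsetSum _ fun i _ => continuous_finsetSum _
      fun j _ => hgc i j)
  have hgint : ∫ x, g x ∂(ν : Measure UnitAddCircle) = (J ν).toReal := by
    have hone : ∀ i j : ℕ, ∫ x, ‖(2 ^ i * 3 ^ j) • x‖ ∂(ν : Measure UnitAddCircle) =
        (J ν).toReal := by
      intro i j
      rw [integral_norm_push, push_inv ν hνinv]
    change ∫ x, ((N : ℝ) * M)⁻¹ * ∑ i ∈ Finset.range N, ∑ j ∈ Finset.range M,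
      ‖(2 ^ i * 3 ^ j) • x‖ ∂(ν : Measure UnitAddCircle) = _
    rw [integral_const_mul, integral_finsetSum _ fun i _ => hint _
      (continuous_finsetSum _ fun j _ => hgc i j)]
    have h1 : ∀ i ∈ Finset.range N, ∫ x, ∑ j ∈ Finset.range M, ‖(2 ^ i * 3 ^ j) • x‖
        ∂(ν : Measure UnitAddCircle) = M * (J ν).toReal := by
      intro i _
      rw [integral_finsetSum _ fun j _ => hint _ (hgc i j)]
      simp [hone]
    rw [Finset.sum_congr rfl h1]
    simp only [Finset.sum_const, Finset.card_range, nsmul_eq_mul]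
    have hN0 : (N : ℝ) ≠ 0 := by
      have : N ≠ 0 := by omega
      exact_mod_cast this
    have hM0 : (M : ℝ) ≠ 0 := by
      have : M ≠ 0 := by omega
      exact_mod_cast this
    field_simp
  have hae : ∀ᵐ x ∂(ν : Measure UnitAddCircle),
      ({0}ᶜ : Set UnitAddCircle).indicator (fun _ => ε) x ≤ g x := by
    obtain ⟨T, hT, hT0⟩ := hνfin
    have hnull : (ν : Measure UnitAddCircle) {x | (ν : Measure UnitAddCircle) {x} = 0} = 0 := by
      have h2 : {x | (ν : Measure UnitAddCircle) {x} = 0} ⊆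
          Tᶜ ∪ (T ∩ {x | (ν : Measure UnitAddCircle) {x} = 0}) := by
        intro y hy
        by_cases hyT : y ∈ T
        · exact Or.inr ⟨hyT, hy⟩
        · exact Or.inl hyT
      refine measure_mono_null h2 (measure_union_null hT0 ?_)
      have hc : (T ∩ {x | (ν : Measure UnitAddCircle) {x} = 0}).Countable :=
        (hT.subset Set.inter_subset_left).countable
      rw [← Set.biUnion_of_singleton (T ∩ {x | (ν : Measure UnitAddCircle) {x} = 0}),
        measure_biUnion_null_iff hc]
      intro y hy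
      exact hy.2
    have hnull2 : ∀ᵐ x ∂(ν : Measure UnitAddCircle), ¬ ((ν : Measure UnitAddCircle) {x} = 0) := by
      rw [ae_iff]
      simpa using hnull
    filter_upwards [hnull2] with x hx
    by_cases hx0 : x = 0
    · subst hx0
      simp only [Set.mem_compl_iff, Set.mem_singleton_iff, not_true_eq_false, not_false_eq_true,
        Set.indicator_of_notMem]
      change 0 ≤ ((N : ℝ) * M)⁻¹ * ∑ i ∈ Finset.range N, ∑ j ∈ Finset.range M, _
      positivity
    · rw [Set.indicator_of_mem (by simpa using hx0)]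
      exact (hcon x N M hN hM (hN2 x hx) (hM3 x hx) hx0).le
  have hmono := integral_mono_ae ((integrable_const ε).indicator
    (measurableSet_singleton (0 : UnitAddCircle)).compl) (hint g hgcont) hae
  rw [hgint, integral_indicator_const _ (measurableSet_singleton (0 : UnitAddCircle)).compl,
    smul_eq_mul] at hmono
  have hJlt : (J ν).toReal < ε / 2 := by
    have h1 := (ENNReal.toReal_lt_toReal (J_ne_top ν) ENNReal.ofReal_ne_top).2 hνJ
    rwa [ENNReal.toReal_ofReal (by positivity)] at h1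
  have hhalf : (1 : ℝ) / 2 ≤ (ν : Measure UnitAddCircle).real {0}ᶜ := by
    rw [probReal_compl_eq_one_sub (measurableSet_singleton _)]
    have h1 : (ν : Measure UnitAddCircle).real {0} ≤ 1 / 2 := by
      have h2 := ENNReal.toReal_mono (by simp) hν0.le
      rw [ENNReal.toReal_inv, ENNReal.toReal_ofNat] at h2
      simpa [Measure.real] using h2
    linarith
  nlinarith

theorem gapOrb_iff : GapOrb ↔ ¬ NoGapOrb := by
  unfold NoGapOrb
  push Not
  constructor
  · rintro ⟨c, hc, h⟩
    refine ⟨c / 2, by positivity, fun x N M hN hM h2 h3 hx => ?_⟩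
    have := h x N M hN hM h2 h3 hx
    linarith
  · rintro ⟨c, hc, h⟩
    exact ⟨c, hc, fun x N M hN hM h2 h3 hx => (h x N M hN hM h2 h3 hx).le⟩

/-- There is a convergent infinite convolution of orbit measures which is a counterexample. -/
def ExConv : Prop := ∃ s : ℕ → PM, (∀ n, IsOrb (s n)) ∧ ∃ μ : PM, Tendsto (pc s) atTop (𝓝 μ) ∧
  (∀ x, (μ : Measure UnitAddCircle) {x} = 0) ∧ Inv μ ∧ (μ : Measure UnitAddCircle) ≠ volume

/-- Some limit point of the partial convolutions of orbit measures is a counterexample. -/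
def ExConv2 : Prop := ∃ s : ℕ → PM, (∀ n, IsOrb (s n)) ∧ ∃ μ : PM, MapClusterPt μ atTop (pc s) ∧
  (∀ x, (μ : Measure UnitAddCircle) {x} = 0) ∧ (μ : Measure UnitAddCircle) ≠ volume

theorem periodic_dichotomy : [NoGapOrb, Dense CE2, CE2 ∈ residual CM, ExConv, ExConv2].TFAE := by
  tfae_have 1 → 3 := ce2_residual
  tfae_have 3 → 2 := fun h => dense_of_mem_residual h
  tfae_have 2 → 1 := fun h => noGapOrb_of_dense CE2 (fun μ hμ => hμ.1) h
  tfae_have 1 → 4 := by
    intro h
    by_contra hcon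
    refine gapOrb_iff.1 (gapOrb_of_conv fun s hs μ hμ hat hinv => ?_) h
    by_contra hne
    exact hcon ⟨s, hs, μ, hμ, hat, hinv, hne⟩
  tfae_have 4 → 5 := fun ⟨s, hs, μ, hμ, hat, _, hne⟩ => ⟨s, hs, μ, hμ.mapClusterPt, hat, hne⟩
  tfae_have 5 → 1 := by
    rintro ⟨s, hs, μ, hμ, hat, hne⟩
    by_contra hcon
    exact hne (conv_of_gapOrb (gapOrb_iff.2 hcon) s hs μ hμ hat)
  tfae_finish

end Pool.Agent.H635F
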