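import Pool.Agent.H635F.Base

set_option autoImplicit false

open MeasureTheory Filter Topology
open scoped ENNReal NNReal

namespace Pool.Agent.H635F

lemma measurable_atom3 (σ : PM) : Measurable fun q : UnitAddCircle × UnitAddCircle × UnitAddCircle =>
    (σ : Measure UnitAddCircle) {q.1 + q.2.1 - q.2.2} :=
  (measurable_atom σ).comp (by fun_prop)

lemma En_cv (σ ν : PM) : En (cv σ ν) = ∫⁻ y, ∫⁻ t, (∫⁻ x, (σ : Measure UnitAddCircle) {x + y - t}
    ∂(σ : Measure UnitAddCircle)) ∂(ν : Measure UnitAddCircle) ∂(ν : Measure UnitAddCircle) := by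
  have h1 : En (cv σ ν) = ∫⁻ z, (cv σ ν : Measure UnitAddCircle) {z}
      ∂(Measure.conv (σ : Measure UnitAddCircle) (ν : Measure UnitAddCircle)) := rfl
  rw [h1, Measure.lintegral_conv (measurable_atom _)]
  simp_rw [cv_atom]
  rw [lintegral_lintegral_swap]
  · refine lintegral_congr fun y => ?_
    rw [lintegral_lintegral_swap]
    have hm : Measurable fun q : UnitAddCircle × UnitAddCircle => q.1 + y - q.2 := by fun_prop
    exact ((measurable_atom σ).comp hm).aemeasurable
  · refine Measurable.aemeasurable ?_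
    refine Measurable.lintegral_prod_right' (f := fun q : (UnitAddCircle × UnitAddCircle) ×
      UnitAddCircle => (σ : Measure UnitAddCircle) {q.1.1 + q.1.2 - q.2}) ?_
    exact (measurable_atom σ).comp (by fun_prop)

/-- The probability that two independent samples are distinct but within `1 / (n+1)`. -/
noncomputable def Dn (σ : PM) (n : ℕ) : ℝ≥0∞ :=
  ((σ : Measure UnitAddCircle).prod (σ : Measure UnitAddCircle))
    {p | 0 < ‖p.2 - p.1‖ ∧ ‖p.2 - p.1‖ < 1 / ((n : ℝ) + 1)}

lemma meas_S (r : ℝ) : MeasurableSet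
    {p : UnitAddCircle × UnitAddCircle | 0 < ‖p.2 - p.1‖ ∧ ‖p.2 - p.1‖ < r} := by
  have hc : Continuous fun p : UnitAddCircle × UnitAddCircle => ‖p.2 - p.1‖ := by fun_prop
  exact ((isOpen_lt continuous_const hc).inter (isOpen_lt hc continuous_const)).measurableSet

lemma tendsto_Dn (σ : PM) : Tendsto (Dn σ) atTop (𝓝 0) := by
  have h := tendsto_measure_iInter_atTop
    (μ := (σ : Measure UnitAddCircle).prod (σ : Measure UnitAddCircle))
    (s := fun n : ℕ => {p : UnitAddCircle × UnitAddCircle |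
      0 < ‖p.2 - p.1‖ ∧ ‖p.2 - p.1‖ < 1 / ((n : ℝ) + 1)})
    (fun n => (meas_S _).nullMeasurableSet)
    (fun m n hmn p hp => ⟨hp.1, hp.2.trans_le (by
      apply one_div_le_one_div_of_le
      · positivity
      · have : (m : ℝ) ≤ n := by exact_mod_cast hmn
        linarith)⟩)
    ⟨0, measure_ne_top _ _⟩
  have e : (⋂ n : ℕ, {p : UnitAddCircle × UnitAddCircle |
      0 < ‖p.2 - p.1‖ ∧ ‖p.2 - p.1‖ < 1 / ((n : ℝ) + 1)}) = ∅ := by
    rw [Set.eq_empty_iff_forall_notMem]
    intro p hp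
    rw [Set.mem_iInter] at hp
    have h0 := (hp 0).1
    obtain ⟨n, hn⟩ := exists_nat_one_div_lt h0
    exact absurd (hp n).2 (not_lt.2 hn.le)
  rw [e, measure_empty] at h
  exact h

lemma inner_le (σ : PM) (n : ℕ) (y t : UnitAddCircle) :
    ∫⁻ x, (σ : Measure UnitAddCircle) {x + y - t} ∂(σ : Measure UnitAddCircle) ≤
      En σ * ({y} : Set UnitAddCircle).indicator 1 t + Dn σ n +
        ((n : ℝ≥0∞) + 1) * ((‖y‖₊ : ℝ≥0∞) + (‖t‖₊ : ℝ≥0∞)) := by
  by_cases hyt : t = y
  · subst hyt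
    have : ∫⁻ x, (σ : Measure UnitAddCircle) {x + t - t} ∂(σ : Measure UnitAddCircle) = En σ := by
      unfold En
      simp
    rw [this]
    simp only [Set.mem_singleton_iff, Set.indicator_of_mem, Pi.one_apply, mul_one]
    rw [add_assoc]
    exact le_self_add
  by_cases hr : ‖y - t‖ < 1 / ((n : ℝ) + 1)
  · have h1 : ∫⁻ x, (σ : Measure UnitAddCircle) {x + y - t} ∂(σ : Measure UnitAddCircle) ≤
        Dn σ n := by
      unfold Dn
      rw [Measure.prod_apply (meas_S _)]
      refine lintegral_mono fun x => measure_mono ?_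
      intro w hw
      rw [Set.mem_singleton_iff] at hw
      subst hw
      have e : x + y - t - x = y - t := by abel
      simp only [Set.mem_preimage, Set.mem_ofPred_eq, e]
      refine ⟨norm_pos_iff.2 (sub_ne_zero.2 (Ne.symm hyt)), hr⟩
    refine h1.trans ?_
    calc Dn σ n ≤ En σ * ({y} : Set UnitAddCircle).indicator 1 t + Dn σ n := le_add_self
      _ ≤ _ := le_self_add
  · have h1 : ∫⁻ x, (σ : Measure UnitAddCircle) {x + y - t} ∂(σ : Measure UnitAddCircle) ≤ 1 := by
      calc _ ≤ ∫⁻ _, 1 ∂(σ : Measure UnitAddCircle) := lintegral_mono fun x => prob_le_one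
        _ = 1 := by simp
    refine h1.trans ?_
    have h2 : (1 : ℝ≥0∞) ≤ ((n : ℝ≥0∞) + 1) * ((‖y‖₊ : ℝ≥0∞) + (‖t‖₊ : ℝ≥0∞)) := by
      have h3 : (1 : ℝ) ≤ ((n : ℝ) + 1) * (‖y‖ + ‖t‖) := by
        have h4 : 1 / ((n : ℝ) + 1) ≤ ‖y‖ + ‖t‖ := (not_lt.1 hr).trans (norm_sub_le y t)
        rw [div_le_iff₀ (by positivity)] at h4
        linarith
      have h5 : (1 : ℝ≥0) ≤ ((n : ℝ≥0) + 1) * (‖y‖₊ + ‖t‖₊) := by
        rw [← NNReal.coe_le_coe]
        push_cast
        exact h3
      exact_mod_cast ENNReal.coe_le_coe.2 h5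
    exact h2.trans le_add_self

lemma En_le_half (ν : PM) (h : ∀ z, (ν : Measure UnitAddCircle) {z} ≤ 2⁻¹) : En ν ≤ 2⁻¹ := by
  unfold En
  calc _ ≤ ∫⁻ _, 2⁻¹ ∂(ν : Measure UnitAddCircle) := lintegral_mono fun z => h z
    _ = 2⁻¹ := by simp

lemma En_cv_le (σ ν : PM) (n : ℕ) (h : ∀ z, (ν : Measure UnitAddCircle) {z} ≤ 2⁻¹) :
    En (cv σ ν) ≤ En σ * 2⁻¹ + Dn σ n + ((n : ℝ≥0∞) + 1) * (2 * J ν) := by
  rw [En_cv]
  calc ∫⁻ y, ∫⁻ t, (∫⁻ x, (σ : Measure UnitAddCircle) {x + y - t}
      ∂(σ : Measure UnitAddCircle)) ∂(ν : Measure UnitAddCircle) ∂(ν : Measure UnitAddCircle)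
      ≤ ∫⁻ y, ∫⁻ t, (En σ * ({y} : Set UnitAddCircle).indicator 1 t + Dn σ n +
        ((n : ℝ≥0∞) + 1) * ((‖y‖₊ : ℝ≥0∞) + (‖t‖₊ : ℝ≥0∞))) ∂(ν : Measure UnitAddCircle)
          ∂(ν : Measure UnitAddCircle) := lintegral_mono fun y => lintegral_mono fun t =>
            inner_le σ n y t
    _ = ∫⁻ y, (En σ * (ν : Measure UnitAddCircle) {y} + Dn σ n +
        ((n : ℝ≥0∞) + 1) * ((‖y‖₊ : ℝ≥0∞) + J ν)) ∂(ν : Measure UnitAddCircle) := by
        refine lintegral_congr fun y => ?_
        have m1 : Measurable fun t : UnitAddCircle =>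
            ({y} : Set UnitAddCircle).indicator (1 : UnitAddCircle → ℝ≥0∞) t :=
          measurable_one.indicator (measurableSet_singleton y)
        rw [lintegral_add_left (by fun_prop), lintegral_add_left (by fun_prop),
          lintegral_const_mul _ m1, lintegral_const_mul _ (by fun_prop),
          lintegral_add_left measurable_const]
        simp only [lintegral_const, measure_univ, mul_one]
        rw [lintegral_indicator_one (measurableSet_singleton y)]
        rfl
    _ = En σ * En ν + Dn σ n + ((n : ℝ≥0∞) + 1) * (J ν + J ν) := by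
        have m2 : Measurable fun y : UnitAddCircle => (ν : Measure UnitAddCircle) {y} :=
          measurable_atom ν
        have m3 : Measurable fun y : UnitAddCircle => En σ * (ν : Measure UnitAddCircle) {y} :=
          m2.const_mul _
        have m4 : Measurable fun y : UnitAddCircle =>
            En σ * (ν : Measure UnitAddCircle) {y} + Dn σ n := m3.add measurable_const
        rw [lintegral_add_left m4, lintegral_add_left m3,
          lintegral_const_mul _ m2, lintegral_const_mul _ (by fun_prop),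
          lintegral_add_left measurable_nn]
        simp only [lintegral_const, measure_univ, mul_one]
        rfl
    _ ≤ _ := by
        rw [two_mul]
        gcongr
        exact En_le_half ν h

lemma step (σ : PM) (ε : ℝ≥0∞) (hε : ε ≠ 0) : ∃ c : ℝ≥0∞, c ≠ 0 ∧ ∀ ν : PM,
    (∀ z, (ν : Measure UnitAddCircle) {z} ≤ 2⁻¹) → J ν ≤ c →
      En (cv σ ν) ≤ En σ * 2⁻¹ + ε := by
  have hε2 : ε * 2⁻¹ ≠ 0 := mul_ne_zero hε (by simp)
  have h := (tendsto_Dn σ).eventually (Iio_mem_nhds (pos_iff_ne_zero.2 hε2))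
  obtain ⟨n, hn⟩ := h.exists
  refine ⟨ε * 2⁻¹ / (((n : ℝ≥0∞) + 1) * 2), ?_, fun ν hν hJ => ?_⟩
  · rw [Ne, ENNReal.div_eq_zero_iff]
    push Not
    refine ⟨hε2, ?_⟩
    exact ENNReal.mul_ne_top (by simp) (by simp)
  · refine (En_cv_le σ ν n hν).trans ?_
    rw [add_assoc]
    refine add_le_add le_rfl ?_
    have h1 : ((n : ℝ≥0∞) + 1) * (2 * J ν) ≤ ε * 2⁻¹ := by
      calc ((n : ℝ≥0∞) + 1) * (2 * J ν) = (((n : ℝ≥0∞) + 1) * 2) * J ν := by ring
        _ ≤ (((n : ℝ≥0∞) + 1) * 2) * (ε * 2⁻¹ / (((n : ℝ≥0∞) + 1) * 2)) := by gcongr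
        _ ≤ _ := ENNReal.mul_div_le
    calc Dn σ n + ((n : ℝ≥0∞) + 1) * (2 * J ν) ≤ ε * 2⁻¹ + ε * 2⁻¹ := by
          gcongr
      _ = ε := by rw [← mul_add, ENNReal.inv_two_add_inv_two, mul_one]

/-- An invariant probability measure without mass at zero has atoms of mass at most one half. -/
lemma atom_le_half (ν : PM) (h2 : push 2 ν = ν) (h0 : (ν : Measure UnitAddCircle) {0} = 0)
    (z : UnitAddCircle) : (ν : Measure UnitAddCircle) {z} ≤ 2⁻¹ := by
  by_cases hz : z = 0
  · subst hz; rw [h0]; exact zero_le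
  have h1 : (ν : Measure UnitAddCircle) {z} ≤ (ν : Measure UnitAddCircle) {2 • z} := by
    calc (ν : Measure UnitAddCircle) {z} ≤ (ν : Measure UnitAddCircle)
          ((fun x : UnitAddCircle => 2 • x) ⁻¹' {2 • z}) := measure_mono (by simp)
      _ = (push 2 ν : Measure UnitAddCircle) {2 • z} := by
          rw [coe_push, Measure.map_apply (continuous_nsmul 2).measurable
            (measurableSet_singleton _)]
      _ = _ := by rw [h2]
  have hd : Disjoint ({z} : Set UnitAddCircle) {2 • z} := by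
    rw [Set.disjoint_singleton]
    intro h
    apply hz
    rw [two_nsmul] at h
    simpa using h
  have h3 : (ν : Measure UnitAddCircle) {z} + (ν : Measure UnitAddCircle) {2 • z} ≤ 1 := by
    rw [← measure_union hd (measurableSet_singleton _)]
    exact prob_le_one
  have h4 : 2 * (ν : Measure UnitAddCircle) {z} ≤ 1 := by
    rw [two_mul]
    exact (add_le_add le_rfl h1).trans h3
  rw [← one_mul (2⁻¹ : ℝ≥0∞), ← div_eq_mul_inv]
  rw [ENNReal.le_div_iff_mul_le (by simp) (by simp), mul_comm]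
  exact h4

end Pool.Agent.H635F
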